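import Pool.Agent.helper28.JetsOneSide

set_option autoImplicit false

open Filter Topology Set

namespace Pool.Agent.helper28.Jets

/-- the oscillating factor -/
noncomputable def u (x : ℝ) : ℝ := Real.sin (Real.log x)

/-- the set `E` -/
def Eset : Set (Fin 2 → ℝ) := {v | v 1 = (v 0) ^ 2 * u (v 0) ∧ u (v 0) * (u (v 0) - v 0) = 0}

lemma zero_mem_Eset : (0 : Fin 2 → ℝ) ∈ Eset := by
  simp [Eset, u]

/-- `x ^ 5 * sin (log x)` -/
noncomputable def phi (x : ℝ) : ℝ := x ^ 5 * u x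

lemma phi_contDiff : ContDiff ℝ 4 phi := by
  have h := osc_contDiff 4 1 0
  have h2 : (fun x : ℝ => x ^ (4 + 1) * (1 * Real.sin (Real.log x) + 0 * Real.cos (Real.log x))) =
      phi := by
    ext x; simp [phi, u]
  rw [h2] at h
  exact_mod_cast h

lemma abs_u_le (x : ℝ) : |u x| ≤ 1 := Real.abs_sin_le_one _

lemma abs_phi_le (x : ℝ) : |phi x| ≤ |x| ^ 5 := by
  rw [phi, abs_mul, abs_pow]
  calc |x| ^ 5 * |u x| ≤ |x| ^ 5 * 1 := by gcongr; exact abs_u_le x
    _ = |x| ^ 5 := mul_one _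

noncomputable def F1 (v : Fin 2 → ℝ) : ℝ := (v 1) ^ 2 - phi (v 0)

noncomputable def F2 (v : Fin 2 → ℝ) : ℝ := (v 0) ^ 3 * v 1 - phi (v 0)

lemma F1_contDiff : ContDiff ℝ 4 F1 :=
  ((contDiff_apply ℝ ℝ (1 : Fin 2)).pow 2).sub (phi_contDiff.comp (contDiff_apply ℝ ℝ (0 : Fin 2)))

lemma F2_contDiff : ContDiff ℝ 4 F2 :=
  (((contDiff_apply ℝ ℝ (0 : Fin 2)).pow 3).mul (contDiff_apply ℝ ℝ (1 : Fin 2))).sub
    (phi_contDiff.comp (contDiff_apply ℝ ℝ (0 : Fin 2)))

lemma F1_zero : ∀ v ∈ Eset, F1 v = 0 := by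
  rintro v ⟨h1, h2⟩
  have h3 : u (v 0) ^ 2 = u (v 0) * v 0 := by linarith
  rw [F1, h1, phi]
  calc ((v 0) ^ 2 * u (v 0)) ^ 2 - (v 0) ^ 5 * u (v 0)
      = (v 0) ^ 4 * (u (v 0) ^ 2) - (v 0) ^ 5 * u (v 0) := by ring
    _ = 0 := by rw [h3]; ring

lemma F2_zero : ∀ v ∈ Eset, F2 v = 0 := by
  rintro v ⟨h1, h2⟩
  rw [F2, h1, phi]
  ring

lemma norm_vec {x y σ : ℝ} (hσ : |σ| = 1) (h : |y| ≤ x) : ‖(![σ * x, y] : Fin 2 → ℝ)‖ ≤ x := by
  have hx : 0 ≤ x := (abs_nonneg y).trans h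
  rw [pi_norm_le_iff_of_nonneg hx]
  intro i
  fin_cases i
  · simp [hσ, abs_of_nonneg hx]
  · simpa using h

lemma ev_vec {P : (Fin 2 → ℝ) → Prop} (hP : ∀ᶠ v in 𝓝 (0 : Fin 2 → ℝ), P v) {σ : ℝ}
    (hσ : |σ| = 1) : ∀ᶠ x : ℝ in 𝓝[>] 0, ∀ y, |y| < x → P ![σ * x, y] := by
  obtain ⟨r, hr, hball⟩ := Metric.eventually_nhds_iff_ball.mp hP
  filter_upwards [Ioo_mem_nhdsGT hr] with x hx y hy
  apply hball
  rw [mem_ball_zero_iff]
  exact lt_of_le_of_lt (norm_vec hσ hy.le) hx.2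

lemma vec_eta (v : Fin 2 → ℝ) : v = ![v 0, v 1] := by
  ext i; fin_cases i <;> rfl

lemma norm_eq_max (v : Fin 2 → ℝ) : ‖v‖ = max |v 0| |v 1| := by
  apply le_antisymm
  · rw [pi_norm_le_iff_of_nonneg (le_max_of_le_left (abs_nonneg _))]
    intro i
    fin_cases i
    · exact le_max_left _ _
    · exact le_max_right _ _
  · exact max_le (norm_le_pi_norm v 0) (norm_le_pi_norm v 1)

/-- jets that agree give a flat difference -/
lemma jets_sub {F G : (Fin 2 → ℝ) → ℝ} (hF : ContDiff ℝ 4 F) (hG : ContDiff ℝ 4 G)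
    (h : ∀ j : ℕ, j ≤ 4 → iteratedFDeriv ℝ j G 0 = iteratedFDeriv ℝ j F 0) :
    ContDiff ℝ 4 (fun v => G v - F v) ∧
      ∀ j ≤ 4, iteratedFDeriv ℝ j (fun v => G v - F v) 0 = 0 := by
  refine ⟨hG.sub hF, fun j hj => ?_⟩
  have h1 : iteratedFDeriv ℝ j (G - F) = iteratedFDeriv ℝ j G - iteratedFDeriv ℝ j F := by
    ext1 x
    rw [Pi.sub_apply]
    exact iteratedFDeriv_sub_apply ((hG.contDiffAt).of_le (by exact_mod_cast hj))
      ((hF.contDiffAt).of_le (by exact_mod_cast hj))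
  have h2 := congrFun h1 0
  rw [Pi.sub_apply, h j hj, sub_self] at h2
  exact h2

/-- The semialgebraic side: if jets of `y ^ 2` and `x ^ 3 y` are attained on `V`, then so is (up to
a flat error depending on `x` only) the jet of `x ^ 2 y`. -/
theorem semialg_side (V : Set (Fin 2 → ℝ)) (hV : SemiAlg 2 V)
    (G1 G2 : (Fin 2 → ℝ) → ℝ) (hG1 : ContDiff ℝ 4 G1) (hG2 : ContDiff ℝ 4 G2)
    (hz1 : ∀ v ∈ V, G1 v = 0) (hz2 : ∀ v ∈ V, G2 v = 0)
    (hj1 : ∀ j : ℕ, j ≤ 4 → iteratedFDeriv ℝ j G1 0 = iteratedFDeriv ℝ j F1 0)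
    (hj2 : ∀ j : ℕ, j ≤ 4 → iteratedFDeriv ℝ j G2 0 = iteratedFDeriv ℝ j F2 0) :
    ∃ (G : (Fin 2 → ℝ) → ℝ) (g : ℝ → ℝ), ContDiff ℝ 4 G ∧ (∀ v ∈ V, G v = 0) ∧
      (∀ᶠ v in 𝓝 (0 : Fin 2 → ℝ), 0 < v 0 → G v = (v 0) ^ 2 * v 1 - g (v 0)) ∧
      (∀ᶠ x : ℝ in 𝓝[>] 0, HasDerivAt g (deriv g x) x) ∧ Small 3 (deriv g) := by
  obtain ⟨hc1, hf1⟩ := jets_sub F1_contDiff hG1 hj1
  obtain ⟨hc2, hf2⟩ := jets_sub F2_contDiff hG2 hj2
  -- thinness of V
  have hthin : ∀ ε > 0, ∀ᶠ v in 𝓝 (0 : Fin 2 → ℝ), v ∈ V → |v 1| ≤ ε * ‖v‖ ^ 2 := by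
    intro ε hε
    have h1 := flat_small 4 (fun v => G1 v - F1 v) (by exact_mod_cast hc1) hf1 (ε ^ 2 / 2)
      (by positivity)
    filter_upwards [h1, Metric.ball_mem_nhds (0 : Fin 2 → ℝ) (show 0 < ε ^ 2 / 2 by positivity)]
      with v h2 h3 hv
    rw [mem_ball_zero_iff] at h3
    rw [hz1 v hv, zero_sub, norm_neg, F1, Real.norm_eq_abs, abs_le] at h2
    have h4 : |v 0| ≤ ‖v‖ := norm_le_pi_norm v 0
    have h5 : |phi (v 0)| ≤ ε ^ 2 / 2 * ‖v‖ ^ 4 := by
      calc |phi (v 0)| ≤ |v 0| ^ 5 := abs_phi_le _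
        _ ≤ ‖v‖ ^ 5 := by gcongr
        _ = ‖v‖ * ‖v‖ ^ 4 := by ring
        _ ≤ ε ^ 2 / 2 * ‖v‖ ^ 4 := by gcongr
    rw [abs_le] at h5
    have h6 : (v 1) ^ 2 ≤ (ε * ‖v‖ ^ 2) ^ 2 := by
      nlinarith [h2.2, h5.2]
    exact abs_le_of_sq_le_sq h6 (by positivity)
  have hthin' : ∀ σ : ℝ, |σ| = 1 → ∀ ε > 0, ∀ᶠ x : ℝ in 𝓝[>] 0, ∀ y, |y| < x →
      ![σ * x, y] ∈ V → |y| ≤ ε * x ^ 2 := by
    intro σ hσ ε hε
    filter_upwards [ev_vec (hthin ε hε) hσ] with x hx y hy hmem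
    have h1 := hx y hy hmem
    have h2 := norm_vec hσ hy.le
    simp only [Matrix.cons_val_one, Matrix.cons_val_fin_one] at h1
    refine h1.trans ?_
    gcongr
  have huniq' : ∀ σ : ℝ, |σ| = 1 → ∀ᶠ x : ℝ in 𝓝[>] 0, ∀ y y', |y| < x → |y'| < x →
      ![σ * x, y] ∈ V → ![σ * x, y'] ∈ V → y = y' := by
    intro σ hσ
    obtain ⟨ρ, hρ, hlip⟩ := flat_lip 3 (fun v => G2 v - F2 v) (by exact_mod_cast hc2) hf2 (1 / 2)
      (by norm_num)
    filter_upwards [Ioo_mem_nhdsGT hρ] with x hx y y' hy hy' hm hm'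
    have h1 := hlip x hx.2 ![σ * x, y] ![σ * x, y'] (norm_vec hσ hy.le) (norm_vec hσ hy'.le)
    rw [hz2 _ hm, hz2 _ hm'] at h1
    have h2 : ‖(![σ * x, y] : Fin 2 → ℝ) - ![σ * x, y']‖ ≤ |y - y'| := by
      rw [pi_norm_le_iff_of_nonneg (abs_nonneg _)]
      intro i
      fin_cases i <;> simp
    have h3 : (0 - F2 ![σ * x, y] - (0 - F2 ![σ * x, y'])) = - ((σ * x) ^ 3 * (y - y')) := by
      simp only [F2, Matrix.cons_val_zero, Matrix.cons_val_one, Matrix.cons_val_fin_one]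
      ring
    have hx0 : 0 < x := hx.1
    rw [h3, norm_neg, Real.norm_eq_abs, abs_mul, abs_pow, abs_mul, hσ, one_mul,
      abs_of_pos hx0] at h1
    have h4 : x ^ 3 * |y - y'| ≤ 1 / 2 * x ^ 3 * |y - y'| := by
      refine h1.trans ?_
      gcongr
    have h5 : 0 < x ^ 3 := by positivity
    have h6 : |y - y'| ≤ 0 := by
      by_contra hcon
      push Not at hcon
      nlinarith [mul_pos h5 hcon]
    have h7 : |y - y'| = 0 := le_antisymm h6 (abs_nonneg _)
    linarith [abs_eq_zero.mp h7]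
  obtain ⟨hp, ⟨δ₁, hδ₁, hp1⟩, hp2, hp3, hp4⟩ :=
    one_side 1 V hV (hthin' 1 (by simp)) (huniq' 1 (by simp))
  obtain ⟨hm, ⟨δ₂, hδ₂, hm1⟩, hm2, hm3, hm4⟩ :=
    one_side (-1) V hV (hthin' (-1) (by simp)) (huniq' (-1) (by simp))
  obtain ⟨δ₃, hδ₃, hp2⟩ := ev_iff.mp hp2
  obtain ⟨δ₄, hδ₄, hm2⟩ := ev_iff.mp hm2
  obtain ⟨δ₅, hδ₅, h5⟩ := Metric.eventually_nhds_iff_ball.mp (hthin (1 / 2) (by norm_num))
  set δ := min (min (min δ₁ δ₂) (min δ₃ δ₄)) (min δ₅ 1) with hδ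
  have hδ0 : 0 < δ := by positivity
  have l1 : δ ≤ δ₁ := (min_le_left _ _).trans ((min_le_left _ _).trans (min_le_left _ _))
  have l2 : δ ≤ δ₂ := (min_le_left _ _).trans ((min_le_left _ _).trans (min_le_right _ _))
  have l3 : δ ≤ δ₃ := (min_le_left _ _).trans ((min_le_right _ _).trans (min_le_left _ _))
  have l4 : δ ≤ δ₄ := (min_le_left _ _).trans ((min_le_right _ _).trans (min_le_right _ _))
  have l5 : δ ≤ δ₅ := (min_le_right _ _).trans (min_le_left _ _)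
  have l6 : δ ≤ 1 := (min_le_right _ _).trans (min_le_right _ _)
  -- the correcting function of x
  set gt : ℝ → ℝ := fun x => ext0 hp x + ext0 hm (-x) with hgt
  have hgt_cd : ContDiffOn ℝ 4 gt (Ioo (-δ) δ) := by
    have e1 : ContDiffOn ℝ 4 (ext0 hp) (Ioo (-δ) δ) :=
      hp1.mono (fun x hx => lt_of_lt_of_le hx.2 l1)
    have e2 : ContDiffOn ℝ 4 (fun x => ext0 hm (-x)) (Ioo (-δ) δ) := by
      have e3 : ContDiffOn ℝ 4 (fun x : ℝ => -x) (Ioo (-δ) δ) := contDiff_neg.contDiffOn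
      refine hm1.comp e3 (fun x hx => ?_)
      have := hx.1
      rw [mem_Iio]
      linarith
    exact e1.add e2
  let χ : ContDiffBump (0 : Fin 2 → ℝ) := ⟨δ / 4, δ / 2, by positivity, by linarith⟩
  have hrin : χ.rIn = δ / 4 := rfl
  have hrout : χ.rOut = δ / 2 := rfl
  refine ⟨fun v => χ v * ((v 0) ^ 2 * v 1 - gt (v 0)), hp, ?_, ?_, ?_, hp3, hp4⟩
  · -- smoothness
    rw [contDiff_iff_contDiffAt]
    intro v
    by_cases hv : ‖v‖ < δ
    · have hv0 : |v 0| < δ := lt_of_le_of_lt (norm_le_pi_norm v 0) hv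
      rw [abs_lt] at hv0
      have e1 : ContDiffAt ℝ 4 gt (v 0) :=
        (hgt_cd (v 0) hv0).contDiffAt (Ioo_mem_nhds hv0.1 hv0.2)
      have e2 : ContDiffAt ℝ 4 (fun v : Fin 2 → ℝ => gt (v 0)) v :=
        e1.comp v (contDiff_apply ℝ ℝ (0 : Fin 2)).contDiffAt
      have e3 : ContDiffAt ℝ 4 (fun v : Fin 2 → ℝ => (v 0) ^ 2 * v 1) v :=
        (((contDiff_apply ℝ ℝ (0 : Fin 2)).pow 2).mul (contDiff_apply ℝ ℝ (1 : Fin 2))).contDiffAt
      exact χ.contDiffAt.mul (e3.sub e2)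
    · have e1 : (fun v : Fin 2 → ℝ => χ v * ((v 0) ^ 2 * v 1 - gt (v 0))) =ᶠ[𝓝 v] fun _ => 0 := by
        have e2 : {w : Fin 2 → ℝ | δ / 2 < ‖w‖} ∈ 𝓝 v := by
          apply (isOpen_lt continuous_const continuous_norm).mem_nhds
          rw [mem_ofPred_eq]
          push Not at hv
          linarith
        filter_upwards [e2] with w hw
        have : χ w = 0 := by
          apply χ.zero_of_le_dist
          rw [hrout, dist_zero_right]
          have hw' : δ / 2 < ‖w‖ := hw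
          exact hw'.le
        rw [this, zero_mul]
      exact contDiffAt_const.congr_of_eventuallyEq e1
  · -- vanishing on V
    intro v hv
    by_cases hn : δ / 2 ≤ ‖v‖
    · have : χ v = 0 := by
        apply χ.zero_of_le_dist
        rw [hrout, dist_zero_right]
        exact hn
      simp only [this, zero_mul]
    · push Not at hn
      have h6 := h5 v (by rw [mem_ball_zero_iff]; linarith) hv
      have h7 := norm_eq_max v
      have key : (v 0) ^ 2 * v 1 - gt (v 0) = 0 := by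
        by_cases hle : |v 0| ≤ |v 1|
        · -- then v = 0
          rw [max_eq_right hle] at h7
          rw [h7] at h6
          have h8 : |v 1| < 1 := by rw [← h7]; linarith
          have h9 : |v 1| = 0 := by
            by_contra hcon
            have : 0 < |v 1| := lt_of_le_of_ne (abs_nonneg _) (Ne.symm hcon)
            nlinarith
          have h10 : v 1 = 0 := abs_eq_zero.mp h9
          have h11 : v 0 = 0 := by
            rw [h9] at hle
            exact abs_eq_zero.mp (le_antisymm hle (abs_nonneg _))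
          rw [h10, h11, hgt]
          simp [ext0]
        · push Not at hle
          rw [max_eq_left hle.le] at h7
          rcases lt_trichotomy (v 0) 0 with h0 | h0 | h0
          · have h8 : |v 0| = - v 0 := abs_of_neg h0
            have h9 : v = ![-1 * (- v 0), v 1] := by
              rw [neg_one_mul, neg_neg]; exact vec_eta v
            have h10 := hm2 (- v 0) ⟨by linarith, by linarith⟩ (v 1) (by linarith) (h9 ▸ hv)
            have h11 : gt (v 0) = hm (- v 0) := by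
              simp only [hgt, ext0]
              rw [if_neg (by linarith), if_pos (by linarith), zero_add]
            rw [h11, ← h10]
            ring
          · rw [h0, abs_zero] at hle
            exact absurd hle (not_lt.mpr (abs_nonneg _))
          · have h8 : |v 0| = v 0 := abs_of_pos h0
            have h9 : v = ![1 * (v 0), v 1] := by
              rw [one_mul]; exact vec_eta v
            have h10 := hp2 (v 0) ⟨by linarith, by linarith⟩ (v 1) (by linarith) (h9 ▸ hv)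
            have h11 : gt (v 0) = hp (v 0) := by
              simp only [hgt, ext0]
              rw [if_pos (by linarith), if_neg (by linarith), add_zero]
            rw [h11, ← h10]
            ring
      simp only [key, mul_zero]
  · filter_upwards [Metric.ball_mem_nhds (0 : Fin 2 → ℝ) (show 0 < δ / 4 by positivity)]
      with v hv hpos
    have h1 : χ v = 1 := by
      apply χ.one_of_mem_closedBall
      rw [hrin]
      exact Metric.ball_subset_closedBall hv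
    have h11 : gt (v 0) = hp (v 0) := by
      simp only [hgt, ext0]
      rw [if_pos (by linarith), if_neg (by linarith), add_zero]
    rw [h1, one_mul, h11]

/-- points of `E` close to each other, arbitrarily close to the origin -/
lemma exists_pair (ρ : ℝ) (hρ : 0 < ρ) : ∃ a b : ℝ, 0 < a ∧ a < b ∧ b < ρ ∧ b < 1 / 2 ∧
    b - a ≤ 2 * a ^ 2 ∧ u a = 0 ∧ u b = b := by
  have hlim : Tendsto (fun n : ℕ => Real.exp (- (n * (2 * Real.pi)))) atTop (𝓝 0) := by
    apply Real.tendsto_exp_neg_atTop_nhds_zero.comp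
    exact (tendsto_natCast_atTop_atTop).atTop_mul_const (by positivity)
  have hm : (0 : ℝ) < min (min (ρ / 3) (1 / 16)) 1 := by positivity
  obtain ⟨n, hn⟩ := (hlim.eventually_lt_const hm).exists
  set a := Real.exp (- (n * (2 * Real.pi))) with ha
  have ha0 : 0 < a := Real.exp_pos _
  have ha1 : a < ρ / 3 := lt_of_lt_of_le hn ((min_le_left _ _).trans (min_le_left _ _))
  have ha2 : a < 1 / 16 := lt_of_lt_of_le hn ((min_le_left _ _).trans (min_le_right _ _))
  have hua : u a = 0 := by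
    rw [u, ha, Real.log_exp, Real.sin_neg]
    have : (n : ℝ) * (2 * Real.pi) = ((2 * n : ℕ) : ℝ) * Real.pi := by push_cast; ring
    rw [this, Real.sin_nat_mul_pi, neg_zero]
  -- the other end
  set c := a + 2 * a ^ 2 with hc
  have hc0 : 0 < c := by positivity
  have hac : a < c := by rw [hc]; nlinarith
  have huc : c ≤ u c := by
    have h1 : c = a * (1 + 2 * a) := by rw [hc]; ring
    have h2 : Real.log c = - (n * (2 * Real.pi)) + Real.log (1 + 2 * a) := by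
      rw [h1, Real.log_mul ha0.ne' (by positivity)]
      congr 1
      rw [ha, Real.log_exp]
    have h3 : u c = Real.sin (Real.log (1 + 2 * a)) := by
      rw [u, h2]
      have : -((n : ℝ) * (2 * Real.pi)) + Real.log (1 + 2 * a) =
          Real.log (1 + 2 * a) - n * (2 * Real.pi) := by ring
      rw [this, Real.sin_sub_nat_mul_two_pi]
    -- lower bound for the logarithm
    have h4 : 1 - (1 + 2 * a)⁻¹ ≤ Real.log (1 + 2 * a) := Real.one_sub_inv_le_log_of_pos (by positivity)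
    have h5 : 1 - (1 + 2 * a)⁻¹ = 2 * a / (1 + 2 * a) := by
      field_simp
      ring
    have h6 : Real.log (1 + 2 * a) ≤ 2 * a := by
      have := Real.log_le_sub_one_of_pos (show 0 < 1 + 2 * a by positivity)
      linarith
    have h7 : (16 / 9) * a ≤ 2 * a / (1 + 2 * a) := by
      rw [le_div_iff₀ (by positivity)]
      nlinarith
    set L := Real.log (1 + 2 * a) with hL
    have hL0 : 0 < L := by linarith
    have h8 : L - L ^ 3 / 6 < Real.sin L := Real.sin_gt_sub_cube hL0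
    rw [h3]
    have h9 : (16 / 9) * a ≤ L := by linarith
    have hLs : L ≤ 1 / 8 := by linarith
    have h10 : L ^ 3 / 6 ≤ L / 256 := by
      have : L ^ 2 ≤ 1 / 64 := by nlinarith
      nlinarith
    have h11 : c ≤ (9 / 8) * a := by
      rw [hc]; nlinarith
    linarith
  have hcont : ContinuousOn (fun x => u x - x) (Icc a c) := by
    intro x hx
    have hx0 : x ≠ 0 := (lt_of_lt_of_le ha0 hx.1).ne'
    apply ContinuousAt.continuousWithinAt
    exact ((Real.continuous_sin.continuousAt).comp (Real.continuousAt_log hx0)).sub continuousAt_id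
  have hivt := intermediate_value_Icc hac.le hcont
  obtain ⟨b, hb, hb0⟩ := hivt
    (show (0 : ℝ) ∈ Icc (u a - a) (u c - c) from ⟨by rw [hua]; linarith, by linarith⟩)
  have hb0 : u b - b = 0 := hb0
  have hab : a < b := by
    rcases hb.1.lt_or_eq with h | h
    · exact h
    · exfalso
      rw [← h, hua] at hb0
      linarith
  have hcb : b ≤ a + 2 * a ^ 2 := hb.2
  have ha3 : a ^ 2 ≤ a := by nlinarith
  exact ⟨a, b, ha0, hab, by nlinarith, by nlinarith, by linarith, hua, by linarith⟩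

/-- The set `E` has no semialgebraic counterpart for jets of order `4` in the plane. -/
theorem no_semialgebraic :
    ¬ ∃ V : Set (Fin 2 → ℝ), SemiAlg 2 V ∧ (0 : Fin 2 → ℝ) ∈ V ∧
      (∀ F : (Fin 2 → ℝ) → ℝ, ContDiff ℝ 4 F → (∀ x ∈ Eset, F x = 0) →
        ∃ G : (Fin 2 → ℝ) → ℝ, ContDiff ℝ 4 G ∧ (∀ x ∈ V, G x = 0) ∧
          ∀ j : ℕ, j ≤ 4 → iteratedFDeriv ℝ j G 0 = iteratedFDeriv ℝ j F 0) ∧
      (∀ G : (Fin 2 → ℝ) → ℝ, ContDiff ℝ 4 G → (∀ x ∈ V, G x = 0) →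
        ∃ F : (Fin 2 → ℝ) → ℝ, ContDiff ℝ 4 F ∧ (∀ x ∈ Eset, F x = 0) ∧
          ∀ j : ℕ, j ≤ 4 → iteratedFDeriv ℝ j F 0 = iteratedFDeriv ℝ j G 0) := by
  rintro ⟨V, hV, h0, hEV, hVE⟩
  obtain ⟨G1, hG1, hz1, hj1⟩ := hEV F1 F1_contDiff F1_zero
  obtain ⟨G2, hG2, hz2, hj2⟩ := hEV F2 F2_contDiff F2_zero
  obtain ⟨G, g, hG, hzG, hGeq, hg1, hg2⟩ := semialg_side V hV G1 G2 hG1 hG2 hz1 hz2 hj1 hj2
  obtain ⟨F, hF, hzF, hjF⟩ := hVE G hG hzG
  obtain ⟨hc, hf⟩ := jets_sub hG hF hjF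
  obtain ⟨ρ₁, hρ₁, hlip⟩ := flat_lip 3 (fun v => F v - G v) (by exact_mod_cast hc) hf (1 / 8)
    (by norm_num)
  obtain ⟨ρ₂, hρ₂, hGeq⟩ := Metric.eventually_nhds_iff_ball.mp hGeq
  obtain ⟨ρ₃, hρ₃, hg⟩ := ev_iff.mp (hg1.and (hg2 (1 / 8) (by norm_num)))
  obtain ⟨a, b, ha0, hab, hbρ, hb2, hba, hua, hub⟩ := exists_pair (min (min ρ₁ ρ₂) ρ₃)
    (by positivity)
  have hb1 : b < ρ₁ := lt_of_lt_of_le hbρ ((min_le_left _ _).trans (min_le_left _ _))
  have hb2' : b < ρ₂ := lt_of_lt_of_le hbρ ((min_le_left _ _).trans (min_le_right _ _))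
  have hb3 : b < ρ₃ := lt_of_lt_of_le hbρ (min_le_right _ _)
  have hb0 : 0 < b := ha0.trans hab
  set P : Fin 2 → ℝ := ![a, 0] with hP
  set Q : Fin 2 → ℝ := ![b, b ^ 3] with hQ
  have hPE : P ∈ Eset := by
    constructor
    · simp [hP, hua]
    · simp [hP, hua]
  have hQE : Q ∈ Eset := by
    constructor
    · simp only [hQ, Matrix.cons_val_one, Matrix.cons_val_fin_one, Matrix.cons_val_zero, hub]
      ring
    · simp [hQ, hub]
  have hb3b : b ^ 3 ≤ b := by nlinarith [sq_nonneg b, mul_pos hb0 hb0]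
  have hPn : ‖P‖ ≤ b := by
    rw [norm_eq_max]
    simp only [hP, Matrix.cons_val_zero, Matrix.cons_val_one, Matrix.cons_val_fin_one, abs_zero,
      abs_of_pos ha0]
    exact max_le hab.le hb0.le
  have hQn : ‖Q‖ ≤ b := by
    rw [norm_eq_max]
    simp only [hQ, Matrix.cons_val_zero, Matrix.cons_val_one, Matrix.cons_val_fin_one,
      abs_of_pos hb0, abs_of_pos (pow_pos hb0 3)]
    exact max_le le_rfl hb3b
  have hGP : G P = - g a := by
    have := hGeq P (by rw [mem_ball_zero_iff]; linarith) (by simpa [hP] using ha0)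
    rw [this]
    simp [hP]
  have hGQ : G Q = b ^ 5 - g b := by
    have := hGeq Q (by rw [mem_ball_zero_iff]; linarith) (by simpa [hQ] using hb0)
    rw [this]
    simp only [hQ, Matrix.cons_val_zero, Matrix.cons_val_one, Matrix.cons_val_fin_one]
    ring
  have hQP : ‖Q - P‖ ≤ 2 * b ^ 2 := by
    rw [norm_eq_max]
    simp only [hP, hQ, Pi.sub_apply, Matrix.cons_val_zero, Matrix.cons_val_one,
      Matrix.cons_val_fin_one, sub_zero]
    rw [abs_of_pos (by linarith), abs_of_pos (pow_pos hb0 3)]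
    refine max_le ?_ ?_
    · nlinarith
    · nlinarith [mul_pos hb0 hb0]
  have h1 := hlip b hb1 Q P hQn hPn
  simp only [hzF Q hQE, hzF P hPE, hGP, hGQ] at h1
  -- the difference of g
  have hgab : |g b - g a| ≤ 1 / 8 * b ^ 3 * (b - a) := by
    have hder : ∀ x ∈ Icc a b, HasDerivWithinAt g (deriv g x) (Icc a b) x := fun x hx =>
      (hg x ⟨lt_of_lt_of_le ha0 hx.1, lt_of_le_of_lt hx.2 hb3⟩).1.hasDerivWithinAt
    have hbound : ∀ x ∈ Icc a b, ‖deriv g x‖ ≤ 1 / 8 * b ^ 3 := by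
      intro x hx
      have h2 := (hg x ⟨lt_of_lt_of_le ha0 hx.1, lt_of_le_of_lt hx.2 hb3⟩).2
      rw [Real.norm_eq_abs]
      refine h2.trans ?_
      have hx0 : 0 < x := lt_of_lt_of_le ha0 hx.1
      gcongr
      exact hx.2
    have := (convex_Icc a b).norm_image_sub_le_of_norm_hasDerivWithin_le hder hbound
      (left_mem_Icc.mpr hab.le) (right_mem_Icc.mpr hab.le)
    rwa [Real.norm_eq_abs, Real.norm_eq_abs, abs_of_pos (show 0 < b - a by linarith)] at this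
  have h2 : |b ^ 5 - (g b - g a)| ≤ 1 / 4 * b ^ 5 := by
    have e1 : (0 - (b ^ 5 - g b) - (0 - -g a)) = - (b ^ 5 - (g b - g a)) := by ring
    rw [e1, norm_neg, Real.norm_eq_abs] at h1
    refine h1.trans ?_
    calc 1 / 8 * b ^ 3 * ‖Q - P‖ ≤ 1 / 8 * b ^ 3 * (2 * b ^ 2) := by gcongr
      _ = 1 / 4 * b ^ 5 := by ring
  have h3 : |g b - g a| ≤ 1 / 4 * b ^ 5 := by
    refine hgab.trans ?_
    calc 1 / 8 * b ^ 3 * (b - a) ≤ 1 / 8 * b ^ 3 * (2 * b ^ 2) := by
          gcongr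
          nlinarith
      _ = 1 / 4 * b ^ 5 := by ring
  rw [abs_le] at h2 h3
  have h5 : 0 < b ^ 5 := by positivity
  linarith [h2.2, h3.2]

end Pool.Agent.helper28.Jets
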