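import Mathlib

set_option autoImplicit false

open Filter Topology Set Polynomial
open scoped Polynomial.Bivariate

namespace Pool.Agent.helper28.Jets

/-- Bezout-type statement: an irreducible bivariate polynomial `p` and a polynomial `q` not
divisible by `p` have, in the ideal they generate, a nonzero polynomial in `x` alone. -/
lemma exists_bezout (p q : ℝ[X][Y]) (hp : Irreducible p) (hpq : ¬ p ∣ q) :
    ∃ a b : ℝ[X][Y], ∃ r : ℝ[X], r ≠ 0 ∧ p * a + q * b = C r := by
  by_cases hdeg : p.natDegree = 0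
  · rw [natDegree_eq_zero] at hdeg
    obtain ⟨r, hr⟩ := hdeg
    refine ⟨1, 0, r, ?_, by simp [hr]⟩
    rintro rfl
    exact hp.ne_zero (by simp [← hr])
  · have hprim : p.IsPrimitive := hp.isPrimitive hdeg
    have hirr : Irreducible (p.map (algebraMap ℝ[X] (FractionRing ℝ[X]))) :=
      hprim.irreducible_iff_irreducible_map_fraction_map.mp hp
    have hnd : ¬ p.map (algebraMap ℝ[X] (FractionRing ℝ[X])) ∣
        q.map (algebraMap ℝ[X] (FractionRing ℝ[X])) := fun h =>
      hpq (hprim.dvd_of_fraction_map_dvd_fraction_map h)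
    have hcop : IsCoprime (p.map (algebraMap ℝ[X] (FractionRing ℝ[X])))
        (q.map (algebraMap ℝ[X] (FractionRing ℝ[X]))) :=
      (hirr.coprime_iff_not_dvd).mpr hnd
    have hinj := IsFractionRing.injective ℝ[X] (FractionRing ℝ[X])
    have hres : resultant p q p.natDegree q.natDegree ≠ 0 := by
      intro h0
      have h1 := resultant_map_map (f := p) (g := q) (m := p.natDegree) (n := q.natDegree)
        (algebraMap ℝ[X] (FractionRing ℝ[X]))
      rw [h0, map_zero] at h1
      have h2 : resultant (p.map (algebraMap ℝ[X] (FractionRing ℝ[X])))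
          (q.map (algebraMap ℝ[X] (FractionRing ℝ[X]))) = 0 := by
        rw [natDegree_map_eq_of_injective hinj, natDegree_map_eq_of_injective hinj]
        exact h1
      rw [resultant_eq_zero_iff] at h2
      exact h2.2 hcop
    obtain ⟨a, b, -, -, hab⟩ := exists_mul_add_mul_eq_C_resultant p q le_rfl le_rfl (Or.inl hdeg)
    exact ⟨a, b, _, hres, hab⟩

/-- a nonzero polynomial has no zero near `0⁺`. -/
lemma eventually_eval_ne_zero (r : ℝ[X]) (hr : r ≠ 0) : ∀ᶠ x : ℝ in 𝓝[>] 0, r.eval x ≠ 0 := by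
  have hfin : {x : ℝ | r.eval x = 0}.Finite := by
    refine (Polynomial.finite_setOfPred_isRoot hr).subset ?_
    intro x hx
    exact hx
  have h1 : ({x : ℝ | r.eval x = 0} \ {0}).Finite := hfin.subset sdiff_subset
  have h2 : ({x : ℝ | r.eval x = 0} \ {0})ᶜ ∈ 𝓝 (0 : ℝ) := by
    apply h1.isClosed.isOpen_compl.mem_nhds
    simp
  filter_upwards [nhdsWithin_le_nhds h2, self_mem_nhdsWithin] with x hx hx0 h
  exact hx ⟨h, ne_of_gt hx0⟩

lemma no_common_zero (p q : ℝ[X][Y]) (hp : Irreducible p) (hpq : ¬ p ∣ q) :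
    ∀ᶠ x : ℝ in 𝓝[>] 0, ∀ y : ℝ, ¬ (p.evalEval x y = 0 ∧ q.evalEval x y = 0) := by
  obtain ⟨a, b, r, hr, hab⟩ := exists_bezout p q hp hpq
  filter_upwards [eventually_eval_ne_zero r hr] with x hx y ⟨h1, h2⟩
  apply hx
  have := congrArg (evalEval x y) hab
  rw [evalEval_add, evalEval_mul, evalEval_mul, h1, h2, evalEval_C] at this
  linarith

/-- extraction of an irreducible factor with frequently many zeros satisfying a side condition -/
lemma exists_irreducible_factor (F : ℝ[X][Y]) (hF : F ≠ 0) (S : ℝ → ℝ → Prop)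
    (h : ∃ᶠ x : ℝ in 𝓝[>] 0, ∃ y : ℝ, F.evalEval x y = 0 ∧ S x y) :
    ∃ p : ℝ[X][Y], Irreducible p ∧ p ∣ F ∧
      ∃ᶠ x : ℝ in 𝓝[>] 0, ∃ y : ℝ, p.evalEval x y = 0 ∧ S x y := by
  revert h hF
  refine WfDvdMonoid.induction_on_irreducible F (fun hF => absurd rfl hF) ?_ ?_
  · intro u hu _ h
    exfalso
    apply h
    obtain ⟨v, hv⟩ := hu.exists_right_inv
    refine Eventually.of_forall ?_
    rintro x ⟨y, hy, -⟩
    have := congrArg (evalEval x y) hv
    rw [evalEval_mul, hy, evalEval_one] at this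
    simp at this
  · intro a i ha hi ih hF h
    have h' : ∃ᶠ x : ℝ in 𝓝[>] 0, ((∃ y : ℝ, i.evalEval x y = 0 ∧ S x y) ∨
        (∃ y : ℝ, a.evalEval x y = 0 ∧ S x y)) := by
      refine h.mono ?_
      rintro x ⟨y, hy, hS⟩
      rw [evalEval_mul, mul_eq_zero] at hy
      rcases hy with hy | hy
      · exact Or.inl ⟨y, hy, hS⟩
      · exact Or.inr ⟨y, hy, hS⟩
    rw [frequently_or_distrib] at h'
    rcases h' with h' | h'
    · exact ⟨i, hi, Dvd.intro _ rfl, h'⟩
    · obtain ⟨p, hp1, hp2, hp3⟩ := ih ha h'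
      exact ⟨p, hp1, hp2.mul_left i, hp3⟩

/-- bivariate polynomials are jointly differentiable, with polynomial partial derivatives -/
lemma exists_partials (p : ℝ[X][Y]) : ∃ px : ℝ[X][Y], ∀ x y : ℝ,
    HasFDerivAt (fun z : ℝ × ℝ => p.evalEval z.1 z.2)
      (px.evalEval x y • ContinuousLinearMap.fst ℝ ℝ ℝ +
        (derivative p).evalEval x y • ContinuousLinearMap.snd ℝ ℝ ℝ) (x, y) := by
  induction p using Polynomial.induction_on' with
  | add p q hp hq =>
    obtain ⟨px, hpx⟩ := hp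
    obtain ⟨qx, hqx⟩ := hq
    refine ⟨px + qx, fun x y => ?_⟩
    have hfun : (fun z : ℝ × ℝ => (p + q).evalEval z.1 z.2) =
        fun z => p.evalEval z.1 z.2 + q.evalEval z.1 z.2 := by
      ext z; rw [evalEval_add]
    rw [hfun]
    refine ((hpx x y).add (hqx x y)).congr_fderiv ?_
    rw [derivative_add, evalEval_add, evalEval_add]
    module
  | monomial n a =>
    refine ⟨monomial n (derivative a), fun x y => ?_⟩
    have h1 : HasFDerivAt (fun z : ℝ × ℝ => a.eval z.1)
        ((derivative a).eval x • ContinuousLinearMap.fst ℝ ℝ ℝ) (x, y) := by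
      have h := (a.hasDerivAt x).comp_hasFDerivAt (x, y)
        (ContinuousLinearMap.fst ℝ ℝ ℝ).hasFDerivAt
      exact h
    have h2 : HasFDerivAt (fun z : ℝ × ℝ => z.2 ^ n)
        ((n * y ^ (n - 1)) • ContinuousLinearMap.snd ℝ ℝ ℝ) (x, y) := by
      have h := (hasDerivAt_pow n y).comp_hasFDerivAt (x, y)
        (ContinuousLinearMap.snd ℝ ℝ ℝ).hasFDerivAt
      exact h
    have hfun : (fun z : ℝ × ℝ => (monomial n a : ℝ[X][Y]).evalEval z.1 z.2) =
        fun z => a.eval z.1 * z.2 ^ n := by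
      ext z
      rw [← C_mul_X_pow_eq_monomial, evalEval_mul, evalEval_C, evalEval_pow, evalEval_X]
    rw [hfun]
    refine (h1.mul h2).congr_fderiv ?_
    rw [derivative_monomial, ← C_mul_X_pow_eq_monomial, ← C_mul_X_pow_eq_monomial, evalEval_mul,
      evalEval_mul, evalEval_C, evalEval_C, evalEval_pow, evalEval_pow, evalEval_X, eval_mul,
      eval_natCast]
    module

lemma continuous_evalEval (p : ℝ[X][Y]) : Continuous (fun z : ℝ × ℝ => p.evalEval z.1 z.2) := by
  obtain ⟨px, h⟩ := exists_partials p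
  rw [continuous_iff_continuousAt]
  rintro ⟨x, y⟩
  exact (h x y).continuousAt

end Pool.Agent.helper28.Jets
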