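import Pool.Agent.helper28.JetsAlg

set_option autoImplicit false

open Filter Topology Set Polynomial
open scoped Polynomial.Bivariate

namespace Pool.Agent.helper28.Jets

/-- Local existence of zeros of `p` near a nondegenerate zero. -/
lemma local_zero (p : ℝ[X][Y]) (G : Finset ℝ[X][Y]) (x₀ y₀ : ℝ) (h0 : p.evalEval x₀ y₀ = 0)
    (hd : (derivative p).evalEval x₀ y₀ ≠ 0) (hlt : |y₀| < x₀)
    (hG : ∀ q ∈ G, 0 < q.evalEval x₀ y₀) (η : ℝ) (hη : 0 < η) :
    ∀ᶠ x in 𝓝 x₀, ∃ y, |y - y₀| < η ∧ |y| < x ∧ p.evalEval x y = 0 ∧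
      ∀ q ∈ G, 0 < q.evalEval x y := by
  set d := (derivative p).evalEval x₀ y₀ with hd_def
  -- the open set where the side conditions hold
  have hU : {z : ℝ × ℝ | |z.2| < z.1 ∧ ∀ q ∈ G, 0 < q.evalEval z.1 z.2} ∈ 𝓝 (x₀, y₀) := by
    have h1 : ∀ᶠ z : ℝ × ℝ in 𝓝 (x₀, y₀), |z.2| < z.1 :=
      (continuous_snd.abs.tendsto (x₀, y₀)).eventually_lt (continuous_fst.tendsto (x₀, y₀)) hlt
    have h2 : ∀ᶠ z : ℝ × ℝ in 𝓝 (x₀, y₀), ∀ q ∈ G, 0 < q.evalEval z.1 z.2 := by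
      rw [Filter.eventually_all_finset]
      intro q hq
      exact (continuous_const.tendsto (x₀, y₀)).eventually_lt
        ((continuous_evalEval q).tendsto (x₀, y₀)) (hG q hq)
    filter_upwards [h1, h2] with z hz1 hz2
    exact ⟨hz1, hz2⟩
  obtain ⟨ε, hε, hball⟩ := Metric.mem_nhds_iff.mp hU
  -- the derivative in y
  obtain ⟨px, hpx⟩ := exists_partials p
  have hder : HasDerivAt (fun y => p.evalEval x₀ y * d) (d * d) y₀ := by
    have h1 : HasDerivAt (fun y : ℝ => ((x₀, y) : ℝ × ℝ)) ((0, 1) : ℝ × ℝ) y₀ :=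
      (hasDerivAt_const y₀ x₀).prodMk (hasDerivAt_id y₀)
    have h2 := (hpx x₀ y₀).comp_hasDerivAt y₀ h1
    have h3 : HasDerivAt (fun y => p.evalEval x₀ y) d y₀ := by
      have h4 : (px.evalEval x₀ y₀ • ContinuousLinearMap.fst ℝ ℝ ℝ +
        (derivative p).evalEval x₀ y₀ • ContinuousLinearMap.snd ℝ ℝ ℝ) ((0, 1) : ℝ × ℝ) = d := by
        simp [hd_def]
      rw [h4] at h2
      exact h2
    exact h3.mul_const d
  have hdd : 0 < d * d := mul_self_pos.mpr hd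
  have hslope : ∀ᶠ y in 𝓝[≠] y₀, 0 < slope (fun y => p.evalEval x₀ y * d) y₀ y :=
    (hasDerivAt_iff_tendsto_slope.mp hder).eventually_const_lt hdd
  rw [eventually_nhdsWithin_iff, Metric.eventually_nhds_iff] at hslope
  obtain ⟨r, hr, hslope⟩ := hslope
  set t := min (min η ε) r / 2 with ht
  have ht0 : 0 < t := by positivity
  have htη : t < η := by
    have : min (min η ε) r ≤ η := (min_le_left _ _).trans (min_le_left _ _)
    linarith
  have htε : t < ε := by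
    have : min (min η ε) r ≤ ε := (min_le_left _ _).trans (min_le_right _ _)
    linarith
  have htr : t < r := by
    have : min (min η ε) r ≤ r := min_le_right _ _
    linarith
  have hp1 : 0 < p.evalEval x₀ (y₀ + t) * d := by
    have h := hslope (y := y₀ + t) (by simp [Real.dist_eq, abs_of_pos ht0, htr])
      (by simp [ht0.ne'])
    rw [slope_def_field, h0] at h
    simp only [zero_mul, sub_zero, add_sub_cancel_left] at h
    rcases div_pos_iff.mp h with h | h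
    · exact h.1
    · linarith [h.2]
  have hp2 : p.evalEval x₀ (y₀ - t) * d < 0 := by
    have h := hslope (y := y₀ - t) (by simp [Real.dist_eq, abs_of_pos ht0, htr])
      (by simp [ht0.ne'])
    rw [slope_def_field, h0] at h
    simp only [zero_mul, sub_zero, sub_sub_cancel_left] at h
    rcases div_pos_iff.mp h with h | h
    · linarith [h.2]
    · exact h.1
  have hc : ∀ y : ℝ, Continuous (fun x : ℝ => p.evalEval x y * d) := fun y =>
    ((continuous_evalEval p).comp (continuous_id.prodMk continuous_const)).mul_const d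
  have e1 : ∀ᶠ x in 𝓝 x₀, 0 < p.evalEval x (y₀ + t) * d :=
    ((hc (y₀ + t)).tendsto x₀).eventually_const_lt hp1
  have e2 : ∀ᶠ x in 𝓝 x₀, p.evalEval x (y₀ - t) * d < 0 :=
    ((hc (y₀ - t)).tendsto x₀).eventually_lt_const hp2
  have e3 : ∀ᶠ x in 𝓝 x₀, dist x x₀ < ε := Metric.ball_mem_nhds x₀ hε
  filter_upwards [e1, e2, e3] with x h1 h2 h3
  have hcy : ContinuousOn (fun y : ℝ => p.evalEval x y * d) (Icc (y₀ - t) (y₀ + t)) :=
    (((continuous_evalEval p).comp (continuous_const.prodMk continuous_id)).mul_const d).continuousOn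
  have hivt := intermediate_value_Icc (by linarith : y₀ - t ≤ y₀ + t) hcy
  obtain ⟨y, hy, hy0⟩ := hivt ⟨h2.le, h1.le⟩
  have hp0 : p.evalEval x y = 0 := by
    rcases mul_eq_zero.mp hy0 with h | h
    · exact h
    · exact absurd h hd
  have hyt : |y - y₀| ≤ t := by
    rw [abs_le]; constructor <;> linarith [hy.1, hy.2]
  have hmem : ((x, y) : ℝ × ℝ) ∈ Metric.ball (x₀, y₀) ε := by
    rw [Metric.mem_ball, Prod.dist_eq]
    refine max_lt h3 ?_
    rw [Real.dist_eq]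
    exact lt_of_le_of_lt hyt htε
  obtain ⟨h5, h6⟩ := hball hmem
  exact ⟨y, lt_of_le_of_lt hyt htη, h5, hp0, h6⟩

/-- The branch theorem: near `0⁺`, a semialgebraic set of the plane which is thin and meets each
vertical line at most once is either empty or the graph of a continuous algebraic function. -/
theorem branch (k : ℕ) (F : Fin k → ℝ[X][Y]) (G : Fin k → Finset ℝ[X][Y])
    (W : ℝ → ℝ → Prop)
    (hW : ∀ x y, W x y ↔ ∃ i, (F i).evalEval x y = 0 ∧ ∀ q ∈ G i, 0 < q.evalEval x y)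
    (hbd : ∀ᶠ x : ℝ in 𝓝[>] 0, ∀ y, |y| < x → W x y → |y| ≤ x ^ 2)
    (huniq : ∀ᶠ x : ℝ in 𝓝[>] 0, ∀ y y', |y| < x → |y'| < x → W x y → W x y' → y = y') :
    (∀ᶠ x : ℝ in 𝓝[>] 0, ∀ y, |y| < x → ¬ W x y) ∨
    ∃ (p : ℝ[X][Y]) (s : ℝ → ℝ), Irreducible p ∧ ∀ᶠ x : ℝ in 𝓝[>] 0,
      |s x| < x ∧ W x (s x) ∧ p.evalEval x (s x) = 0 ∧
        (derivative p).evalEval x (s x) ≠ 0 ∧ ContinuousAt s x := by
  by_cases h : ∀ᶠ x : ℝ in 𝓝[>] 0, ∀ y, |y| < x → ¬ W x y
  · exact Or.inl h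
  right
  -- pigeonhole for the piece
  have hi : ∃ i, ∃ᶠ x : ℝ in 𝓝[>] 0, ∃ y, (F i).evalEval x y = 0 ∧
      (|y| < x ∧ ∀ q ∈ G i, 0 < q.evalEval x y) := by
    by_contra hcon
    push Not at hcon
    apply h
    have h2 : ∀ᶠ x : ℝ in 𝓝[>] 0, ∀ i, ¬ ∃ y, (F i).evalEval x y = 0 ∧
        (|y| < x ∧ ∀ q ∈ G i, 0 < q.evalEval x y) := by
      rw [eventually_all]
      intro i
      have := hcon i
      simpa [not_frequently] using this
    filter_upwards [h2] with x hx y hy hWxy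
    obtain ⟨i, hF, hG⟩ := (hW x y).mp hWxy
    exact hx i ⟨y, hF, hy, hG⟩
  obtain ⟨i, hi⟩ := hi
  -- the equation is nontrivial
  have hFi : F i ≠ 0 := by
    intro hF0
    obtain ⟨x, ⟨y, -, hy, hq⟩, hx⟩ := (hi.and_eventually huniq).exists
    have h1 : ∀ᶠ y' in 𝓝 y, |y'| < x ∧ ∀ q ∈ G i, 0 < q.evalEval x y' := by
      have h2 : ∀ᶠ y' in 𝓝 y, |y'| < x := (continuous_abs.tendsto y).eventually_lt_const hy
      have h3 : ∀ᶠ y' in 𝓝 y, ∀ q ∈ G i, 0 < q.evalEval x y' := by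
        rw [Filter.eventually_all_finset]
        intro q hq'
        exact (((continuous_evalEval q).comp
          (continuous_const.prodMk continuous_id)).tendsto y).eventually_const_lt (hq q hq')
      exact h2.and h3
    have h4 : ∀ᶠ y' in 𝓝[≠] y, |y'| < x ∧ ∀ q ∈ G i, 0 < q.evalEval x y' :=
      nhdsWithin_le_nhds h1
    obtain ⟨y', ⟨h5, h6⟩, h7⟩ := (h4.and self_mem_nhdsWithin).exists
    have hWy : W x y := (hW x y).mpr ⟨i, by rw [hF0, evalEval_zero], hq⟩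
    have hWy' : W x y' := (hW x y').mpr ⟨i, by rw [hF0, evalEval_zero], h6⟩
    exact h7 (hx y' y h5 hy hWy' hWy)
  obtain ⟨p, hp, hpF, hfreq⟩ := exists_irreducible_factor (F i) hFi
    (fun x y => |y| < x ∧ ∀ q ∈ G i, 0 < q.evalEval x y) hi
  have hpq : ∀ q ∈ G i, ¬ p ∣ q := by
    intro q hq hdvd
    obtain ⟨x, y, h1, -, h2⟩ := hfreq.exists
    have h3 := h2 q hq
    obtain ⟨a, rfl⟩ := hdvd
    rw [evalEval_mul, h1, zero_mul] at h3
    exact lt_irrefl _ h3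
  have hdeg : p.natDegree ≠ 0 := by
    intro hdeg
    rw [natDegree_eq_zero] at hdeg
    obtain ⟨r, hr⟩ := hdeg
    have hr0 : r ≠ 0 := by
      rintro rfl
      exact hp.ne_zero (by simp [← hr])
    obtain ⟨x, ⟨y, h1, -⟩, h2⟩ := (hfreq.and_eventually (eventually_eval_ne_zero r hr0)).exists
    rw [← hr, evalEval_C] at h1
    exact h2 h1
  have hpd : ¬ p ∣ derivative p := by
    intro hdvd
    have h1 : derivative p ≠ 0 := by
      intro h0
      exact hdeg (natDegree_eq_zero_of_derivative_eq_zero h0)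
    have h2 := natDegree_le_of_dvd hdvd h1
    have h3 := natDegree_derivative_lt hdeg
    omega
  have hE1 := no_common_zero p (derivative p) hp hpd
  have hE2 : ∀ᶠ x : ℝ in 𝓝[>] 0, ∀ q ∈ G i, ∀ y : ℝ,
      ¬ (p.evalEval x y = 0 ∧ q.evalEval x y = 0) := by
    rw [Filter.eventually_all_finset]
    intro q hq
    exact no_common_zero p q hp (hpq q hq)
  have hE3 : ∀ᶠ x : ℝ in 𝓝[>] 0, x < 1 := nhdsWithin_le_nhds (Iio_mem_nhds one_pos)
  obtain ⟨δ, hδ, hall⟩ := mem_nhdsGT_iff_exists_Ioo_subset.mp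
    (hbd.and (huniq.and (hE1.and (hE2.and hE3))))
  have hδ' : (0 : ℝ) < δ := hδ
  -- the set of abscissae
  set u : Set ℝ := {x | x ∈ Ioo 0 δ ∧ ∃ y, |y| < x ∧ p.evalEval x y = 0 ∧
    ∀ q ∈ G i, 0 < q.evalEval x y} with hu
  have hWi : ∀ x y, p.evalEval x y = 0 → (∀ q ∈ G i, 0 < q.evalEval x y) → W x y := by
    intro x y h1 h2
    refine (hW x y).mpr ⟨i, ?_, h2⟩
    obtain ⟨a, ha⟩ := hpF
    rw [ha, evalEval_mul, h1, zero_mul]
  have hopen : IsOpen u := by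
    rw [isOpen_iff_mem_nhds]
    rintro x₀ ⟨hx₀, y₀, h1, h2, h3⟩
    obtain ⟨-, -, h4, -⟩ := hall hx₀
    have h5 := local_zero p (G i) x₀ y₀ h2 (fun h => h4 y₀ ⟨h2, h⟩) h1 h3 1 one_pos
    filter_upwards [h5, Ioo_mem_nhds hx₀.1 hx₀.2] with x ⟨y, _, hy1, hy2, hy3⟩ hx
    exact ⟨hx, y, hy1, hy2, hy3⟩
  have hne : (Ioo 0 δ ∩ u).Nonempty := by
    obtain ⟨x, ⟨y, h1, h2, h3⟩, h4⟩ := (hfreq.and_eventually (Ioo_mem_nhdsGT hδ')).exists
    exact ⟨x, h4, h4, y, h2, h1, h3⟩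
  have hclos : closure u ∩ Ioo 0 δ ⊆ u := by
    rintro x₀ ⟨hcl, hx₀⟩
    obtain ⟨xs, hxs, hlim⟩ := mem_closure_iff_seq_limit.mp hcl
    choose hxI ys hy1 hy2 hy3 using hxs
    have hb : ∀ n, ys n ∈ Icc (-1 : ℝ) 1 := by
      intro n
      obtain ⟨-, -, -, -, hlt1⟩ := hall (hxI n)
      have := hy1 n
      rw [mem_Icc, ← abs_le]
      exact (this.trans hlt1).le
    obtain ⟨y₀, -, φ, hφ, hylim⟩ := isCompact_Icc.tendsto_subseq hb
    have hxlim : Tendsto (xs ∘ φ) atTop (𝓝 x₀) := hlim.comp hφ.tendsto_atTop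
    have hpair : Tendsto (fun n => ((xs ∘ φ) n, (ys ∘ φ) n)) atTop (𝓝 (x₀, y₀)) :=
      hxlim.prodMk_nhds hylim
    have hp0 : p.evalEval x₀ y₀ = 0 := by
      have h1 := ((continuous_evalEval p).tendsto (x₀, y₀)).comp hpair
      refine tendsto_nhds_unique h1 ?_
      refine tendsto_const_nhds.congr (fun n => ?_)
      simp only [Function.comp_apply]
      exact (hy2 (φ n)).symm
    obtain ⟨-, -, -, h7, hlt1⟩ := hall hx₀
    have hq0 : ∀ q ∈ G i, 0 < q.evalEval x₀ y₀ := by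
      intro q hq
      have h1 := ((continuous_evalEval q).tendsto (x₀, y₀)).comp hpair
      have h2 : 0 ≤ q.evalEval x₀ y₀ := by
        refine ge_of_tendsto' h1 (fun n => ?_)
        simp only [Function.comp_apply]
        exact (hy3 (φ n) q hq).le
      exact lt_of_le_of_ne h2 (fun h => h7 q hq y₀ ⟨hp0, h.symm⟩)
    have hy0 : |y₀| ≤ x₀ ^ 2 := by
      refine le_of_tendsto_of_tendsto' (hylim.abs) (hxlim.pow 2) (fun n => ?_)
      obtain ⟨h8, -⟩ := hall (hxI (φ n))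
      exact h8 _ (hy1 (φ n)) (hWi _ _ (hy2 (φ n)) (hy3 (φ n)))
    have hx2 : x₀ ^ 2 < x₀ := by
      have h9 := hx₀.1
      have h10 : x₀ < 1 := hlt1
      nlinarith
    exact ⟨hx₀, y₀, lt_of_le_of_lt hy0 hx2, hp0, hq0⟩
  have hsub : Ioo 0 δ ⊆ u :=
    isPreconnected_Ioo.subset_of_closure_inter_subset hopen hne hclos
  -- choose the branch
  have hch : ∀ x : ℝ, ∃ y, x ∈ Ioo 0 δ → (|y| < x ∧ p.evalEval x y = 0 ∧
      ∀ q ∈ G i, 0 < q.evalEval x y) := by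
    intro x
    by_cases hx : x ∈ Ioo 0 δ
    · obtain ⟨-, y, hy⟩ := hsub hx
      exact ⟨y, fun _ => hy⟩
    · exact ⟨0, fun h => absurd h hx⟩
  choose s hs using hch
  refine ⟨p, s, hp, ?_⟩
  filter_upwards [Ioo_mem_nhdsGT hδ'] with x hx
  obtain ⟨h1, h2, h3⟩ := hs x hx
  obtain ⟨-, -, h4, -⟩ := hall hx
  have hd0 : (derivative p).evalEval x (s x) ≠ 0 := fun h => h4 (s x) ⟨h2, h⟩
  refine ⟨h1, hWi _ _ h2 h3, h2, hd0, ?_⟩
  rw [ContinuousAt, Metric.tendsto_nhds]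
  intro η hη
  have h5 := local_zero p (G i) x (s x) h2 hd0 h1 h3 η hη
  filter_upwards [h5, Ioo_mem_nhds hx.1 hx.2] with x' ⟨y, hy0, hy1, hy2, hy3⟩ hx'
  obtain ⟨h6, h7, h8⟩ := hs x' hx'
  obtain ⟨-, h9, -⟩ := hall hx'
  have := h9 y (s x') hy1 h6 (hWi _ _ hy2 hy3) (hWi _ _ h7 h8)
  rw [← this, Real.dist_eq]
  exact hy0

end Pool.Agent.helper28.Jets
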