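import Mathlib

set_option autoImplicit false

open Filter Topology Set

namespace Pool.Agent.helper28.Jets

variable {E : Type} [NormedAddCommGroup E] [NormedSpace ℝ E]

/-- A `C^n` function with vanishing `n`-jet at `0` is `o(‖v‖ ^ n)`. -/
lemma flat_small (n : ℕ) : ∀ {F : Type} [NormedAddCommGroup F] [NormedSpace ℝ F] (h : E → F),
    ContDiff ℝ n h → (∀ j ≤ n, iteratedFDeriv ℝ j h 0 = 0) →
    ∀ ε > 0, ∀ᶠ v in 𝓝 (0 : E), ‖h v‖ ≤ ε * ‖v‖ ^ n := by
  induction n with
  | zero =>
    intro F _ _ h hc hj ε hε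
    have h0 : h 0 = 0 := by
      have h1 := hj 0 le_rfl
      have h2 : ‖iteratedFDeriv ℝ 0 h 0‖ = ‖h 0‖ := norm_iteratedFDeriv_zero
      rw [h1, norm_zero] at h2
      exact norm_eq_zero.mp h2.symm
    have h3 : Tendsto (fun v => ‖h v‖) (𝓝 0) (𝓝 0) := by
      have := (hc.continuous.norm).tendsto 0
      rwa [h0, norm_zero] at this
    filter_upwards [h3.eventually_lt_const hε] with v hv
    rw [pow_zero, mul_one]
    exact hv.le
  | succ n ih =>
    intro F _ _ h hc hj ε hε
    have hc' : ContDiff ℝ n (fderiv ℝ h) :=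
      hc.fderiv_right (by norm_cast)
    have hj' : ∀ j ≤ n, iteratedFDeriv ℝ j (fderiv ℝ h) 0 = 0 := by
      intro j hjn
      have h1 : ‖iteratedFDeriv ℝ j (fderiv ℝ h) 0‖ = ‖iteratedFDeriv ℝ (j + 1) h 0‖ :=
        norm_iteratedFDeriv_fderiv
      rw [hj (j + 1) (by omega), norm_zero] at h1
      exact norm_eq_zero.mp h1
    have h0 : h 0 = 0 := by
      have h1 := hj 0 (Nat.zero_le _)
      have h2 : ‖iteratedFDeriv ℝ 0 h 0‖ = ‖h 0‖ := norm_iteratedFDeriv_zero
      rw [h1, norm_zero] at h2
      exact norm_eq_zero.mp h2.symm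
    have hev := ih (fderiv ℝ h) hc' hj' ε hε
    obtain ⟨r, hr, hball⟩ := Metric.eventually_nhds_iff_ball.mp hev
    filter_upwards [Metric.ball_mem_nhds (0 : E) hr] with v hv
    have hd : Differentiable ℝ h := hc.differentiable (by norm_cast)
    have hbound : ∀ w ∈ Metric.closedBall (0 : E) ‖v‖, ‖fderiv ℝ h w‖ ≤ ε * ‖v‖ ^ n := by
      intro w hw
      rw [mem_closedBall_zero_iff] at hw
      rw [mem_ball_zero_iff] at hv
      have h1 := hball w (by rw [mem_ball_zero_iff]; linarith)
      refine h1.trans ?_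
      gcongr
    have := (convex_closedBall (0 : E) ‖v‖).norm_image_sub_le_of_norm_fderiv_le
      (fun w _ => hd w) hbound (x := 0) (y := v) (by simp) (by simp)
    rw [h0, sub_zero, sub_zero] at this
    calc ‖h v‖ ≤ ε * ‖v‖ ^ n * ‖v‖ := this
      _ = ε * ‖v‖ ^ (n + 1) := by ring

/-- Lipschitz form of the previous estimate. -/
lemma flat_lip (n : ℕ) {F : Type} [NormedAddCommGroup F] [NormedSpace ℝ F] (h : E → F)
    (hc : ContDiff ℝ ((n + 1 : ℕ) : ℕ∞) h) (hj : ∀ j ≤ n + 1, iteratedFDeriv ℝ j h 0 = 0)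
    (ε : ℝ) (hε : 0 < ε) :
    ∃ ρ > 0, ∀ R < ρ, ∀ v w : E, ‖v‖ ≤ R → ‖w‖ ≤ R → ‖h v - h w‖ ≤ ε * R ^ n * ‖v - w‖ := by
  have hc' : ContDiff ℝ n (fderiv ℝ h) :=
    hc.fderiv_right (by norm_cast)
  have hj' : ∀ j ≤ n, iteratedFDeriv ℝ j (fderiv ℝ h) 0 = 0 := by
    intro j hjn
    have h1 : ‖iteratedFDeriv ℝ j (fderiv ℝ h) 0‖ = ‖iteratedFDeriv ℝ (j + 1) h 0‖ :=
      norm_iteratedFDeriv_fderiv
    rw [hj (j + 1) (by omega), norm_zero] at h1
    exact norm_eq_zero.mp h1
  have hev := flat_small n (fderiv ℝ h) hc' hj' ε hε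
  obtain ⟨r, hr, hball⟩ := Metric.eventually_nhds_iff_ball.mp hev
  refine ⟨r, hr, fun R hR v w hv hw => ?_⟩
  have hR0 : 0 ≤ R := (norm_nonneg v).trans hv
  have hd : Differentiable ℝ h := hc.differentiable (by norm_cast)
  have hbound : ∀ z ∈ Metric.closedBall (0 : E) R, ‖fderiv ℝ h z‖ ≤ ε * R ^ n := by
    intro z hz
    rw [mem_closedBall_zero_iff] at hz
    have h1 := hball z (by rw [mem_ball_zero_iff]; linarith)
    refine h1.trans ?_
    gcongr
  exact (convex_closedBall (0 : E) R).norm_image_sub_le_of_norm_fderiv_le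
    (fun w _ => hd w) hbound (by simpa using hw) (by simpa using hv)

open Real in
lemma osc_bound (a b x : ℝ) : |a * sin (log x) + b * cos (log x)| ≤ |a| + |b| := by
  calc |a * sin (log x) + b * cos (log x)| ≤ |a * sin (log x)| + |b * cos (log x)| := abs_add_le _ _
    _ = |a| * |sin (log x)| + |b| * |cos (log x)| := by rw [abs_mul, abs_mul]
    _ ≤ |a| * 1 + |b| * 1 := by
      gcongr
      · exact abs_sin_le_one _
      · exact abs_cos_le_one _
    _ = |a| + |b| := by ring

open Real in
/-- oscillating functions of finite smoothness -/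
lemma osc_contDiff (k : ℕ) : ∀ a b : ℝ,
    ContDiff ℝ k (fun x : ℝ => x ^ (k + 1) * (a * sin (log x) + b * cos (log x))) := by
  induction k with
  | zero =>
    intro a b
    rw [Nat.cast_zero, contDiff_zero, continuous_iff_continuousAt]
    intro x
    by_cases hx : x = 0
    · subst hx
      rw [ContinuousAt]
      simp only [zero_add, pow_one, zero_mul]
      refine squeeze_zero_norm (a := fun x => |x| * (|a| + |b|)) (fun x => ?_) ?_
      · rw [norm_mul, Real.norm_eq_abs, Real.norm_eq_abs]
        gcongr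
        exact osc_bound a b x
      · have : Tendsto (fun x : ℝ => |x| * (|a| + |b|)) (𝓝 0) (𝓝 (|0| * (|a| + |b|))) :=
          (continuous_abs.mul continuous_const).tendsto 0
        simpa using this
    · have h1 : ContinuousAt log x := continuousAt_log hx
      exact (continuousAt_id.pow _).mul ((continuousAt_const.mul (continuous_sin.continuousAt.comp h1)).add
        (continuousAt_const.mul (continuous_cos.continuousAt.comp h1)))
  | succ k ih =>
    intro a b
    have hder : ∀ x : ℝ, HasDerivAt
        (fun x : ℝ => x ^ (k + 1 + 1) * (a * sin (log x) + b * cos (log x)))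
        (x ^ (k + 1) * (((k + 2) * a - b) * sin (log x) + ((k + 2) * b + a) * cos (log x))) x := by
      intro x
      by_cases hx : x = 0
      · subst hx
        have hz : ((0 : ℝ) ^ (k + 1) * (((k + 2) * a - b) * sin (log 0) +
            ((k + 2) * b + a) * cos (log 0))) = 0 := by simp
        rw [hz, hasDerivAt_iff_isLittleO, Asymptotics.isLittleO_iff]
        intro ε hε
        have hcont : Tendsto (fun x : ℝ => |x| * (|a| + |b|)) (𝓝 0) (𝓝 (|0| * (|a| + |b|))) :=
          (continuous_abs.mul continuous_const).tendsto 0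
        rw [abs_zero, zero_mul] at hcont
        filter_upwards [hcont.eventually_lt_const hε, Metric.ball_mem_nhds (0 : ℝ) one_pos]
          with x hx hx1
        rw [Metric.mem_ball, Real.dist_eq, sub_zero] at hx1
        simp only [ne_eq, Nat.add_eq_zero_iff, one_ne_zero, and_false, not_false_eq_true, zero_pow,
          zero_mul, sub_zero, smul_zero, norm_mul, norm_pow, Real.norm_eq_abs]
        calc |x| ^ (k + 1 + 1) * |a * sin (log x) + b * cos (log x)|
            ≤ |x| ^ 2 * (|a| + |b|) := by
              gcongr ?_ * ?_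
              · exact pow_le_pow_of_le_one (abs_nonneg _) hx1.le (by omega)
              · exact osc_bound a b x
          _ = |x| * (|a| + |b|) * |x| := by ring
          _ ≤ ε * |x| := by gcongr
      · have h1 : HasDerivAt log x⁻¹ x := hasDerivAt_log hx
        have h2 := (h1.sin.const_mul a).add (h1.cos.const_mul b)
        have h3 := (hasDerivAt_pow (k + 1 + 1) x).mul h2
        refine h3.congr_deriv ?_
        push_cast
        simp only [Pi.add_apply]
        field_simp
        ring
    rw [Nat.cast_add, Nat.cast_one, contDiff_succ_iff_deriv]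
    refine ⟨fun x => (hder x).differentiableAt, by simp, ?_⟩
    have : deriv (fun x : ℝ => x ^ (k + 1 + 1) * (a * sin (log x) + b * cos (log x))) =
        fun x : ℝ => x ^ (k + 1) * (((k + 2) * a - b) * sin (log x) +
          ((k + 2) * b + a) * cos (log x)) := by
      ext x
      exact (hder x).deriv
    rw [this]
    exact ih _ _

end Pool.Agent.helper28.Jets
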