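import Pool.Agent.helper28.JetsBranch

set_option autoImplicit false

open Filter Topology Set Polynomial
open scoped Polynomial.Bivariate

namespace Pool.Agent.helper28.Jets

/-- `s` is, near `0⁺`, a continuous nondegenerate root of the irreducible polynomial `p`. -/
def IsBranch (p : ℝ[X][Y]) (s : ℝ → ℝ) : Prop :=
  Irreducible p ∧ ∀ᶠ x : ℝ in 𝓝[>] 0, p.evalEval x (s x) = 0 ∧
    (derivative p).evalEval x (s x) ≠ 0 ∧ ContinuousAt s x

/-- rational functions of `x` and `s x`, near `0⁺`. -/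
def Nice (s h : ℝ → ℝ) : Prop :=
  ∃ P Q : ℝ[X][Y], ∀ᶠ x : ℝ in 𝓝[>] 0, Q.evalEval x (s x) ≠ 0 ∧
    h x = P.evalEval x (s x) / Q.evalEval x (s x)

lemma ev_iff {P : ℝ → Prop} : (∀ᶠ x : ℝ in 𝓝[>] 0, P x) ↔ ∃ δ > 0, ∀ x ∈ Ioo 0 δ, P x := by
  constructor
  · intro h
    obtain ⟨δ, hδ, hall⟩ := mem_nhdsGT_iff_exists_Ioo_subset.mp h
    exact ⟨δ, hδ, fun x hx => hall hx⟩
  · rintro ⟨δ, hδ, h⟩
    filter_upwards [Ioo_mem_nhdsGT hδ] with x hx
    exact h x hx

lemma ev_ev {P : ℝ → Prop} (h : ∀ᶠ x : ℝ in 𝓝[>] 0, P x) :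
    ∀ᶠ x : ℝ in 𝓝[>] 0, ∀ᶠ x' in 𝓝 x, P x' := by
  obtain ⟨δ, hδ, h⟩ := ev_iff.mp h
  filter_upwards [Ioo_mem_nhdsGT hδ] with x hx
  filter_upwards [Ioo_mem_nhds hx.1 hx.2] with x' hx'
  exact h x' hx'

lemma IsBranch.dichotomy {p : ℝ[X][Y]} {s : ℝ → ℝ} (hb : IsBranch p s) (P : ℝ[X][Y]) :
    (∀ᶠ x : ℝ in 𝓝[>] 0, P.evalEval x (s x) = 0) ∨
    (∀ᶠ x : ℝ in 𝓝[>] 0, P.evalEval x (s x) ≠ 0) := by
  obtain ⟨hp, hb⟩ := hb
  by_cases h : p ∣ P
  · left
    obtain ⟨a, rfl⟩ := h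
    filter_upwards [hb] with x hx
    rw [evalEval_mul, hx.1, zero_mul]
  · right
    filter_upwards [hb, no_common_zero p P hp h] with x hx h1 h2
    exact h1 (s x) ⟨hx.1, h2⟩

/-- implicit differentiation -/
lemma implicit_deriv (f : ℝ × ℝ → ℝ) (s : ℝ → ℝ) (x A B : ℝ)
    (hf : HasFDerivAt f (A • ContinuousLinearMap.fst ℝ ℝ ℝ + B • ContinuousLinearMap.snd ℝ ℝ ℝ)
      (x, s x)) (hB : B ≠ 0) (hs : ContinuousAt s x) (h0 : ∀ᶠ x' in 𝓝 x, f (x', s x') = 0) :
    HasDerivAt s (-A / B) x := by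
  have hx0 : f (x, s x) = 0 := h0.self_of_nhds
  have hpair : Tendsto (fun x' => ((x', s x') : ℝ × ℝ)) (𝓝 x) (𝓝 (x, s x)) :=
    tendsto_id.prodMk_nhds hs
  have hlo := hf.isLittleO.comp_tendsto hpair
  rw [hasDerivAt_iff_isLittleO, Asymptotics.isLittleO_iff]
  intro ε hε
  set κ := -A / B with hκ
  set c := min (1 / 2) (ε / (2 * |κ| + 2)) with hc
  have hc0 : 0 < c := by positivity
  have hBpos : 0 < |B| := abs_pos.mpr hB
  have h1 := (Asymptotics.isLittleO_iff.mp hlo) (mul_pos hc0 hBpos)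
  filter_upwards [h1, h0] with x' h1 h2
  simp only [Function.comp_apply, h2, hx0, sub_zero, zero_sub, norm_neg] at h1
  have h3 : (A • ContinuousLinearMap.fst ℝ ℝ ℝ + B • ContinuousLinearMap.snd ℝ ℝ ℝ)
      (((x', s x') : ℝ × ℝ) - (x, s x)) = B * (s x' - s x - (x' - x) * κ) := by
    simp only [Prod.mk_sub_mk, add_apply, smul_apply,
      ContinuousLinearMap.coe_fst', ContinuousLinearMap.coe_snd', smul_eq_mul]
    rw [hκ]
    field_simp
    ring
  rw [h3, norm_mul, Real.norm_eq_abs, Real.norm_eq_abs] at h1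
  have h4 : ‖((x', s x') : ℝ × ℝ) - (x, s x)‖ ≤ |x' - x| + |s x' - s x| := by
    rw [Prod.mk_sub_mk, Prod.norm_def]
    simp only [Real.norm_eq_abs]
    exact max_le (by linarith [abs_nonneg (s x' - s x)]) (by linarith [abs_nonneg (x' - x)])
  have h5 : |s x' - s x - (x' - x) * κ| ≤ c * (|x' - x| + |s x' - s x|) := by
    have : |B| * |s x' - s x - (x' - x) * κ| ≤ |B| * (c * (|x' - x| + |s x' - s x|)) := by
      calc |B| * |s x' - s x - (x' - x) * κ| ≤ c * |B| * ‖((x', s x') : ℝ × ℝ) - (x, s x)‖ := h1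
        _ ≤ c * |B| * (|x' - x| + |s x' - s x|) := by gcongr
        _ = |B| * (c * (|x' - x| + |s x' - s x|)) := by ring
    exact le_of_mul_le_mul_left this hBpos
  have hc1 : c ≤ 1 / 2 := min_le_left _ _
  have hc2 : c * (2 * |κ| + 2) ≤ ε := by
    have : c ≤ ε / (2 * |κ| + 2) := min_le_right _ _
    rwa [le_div_iff₀ (by positivity)] at this
  have h6 : |s x' - s x| ≤ |s x' - s x - (x' - x) * κ| + |x' - x| * |κ| := by
    calc |s x' - s x| = |(s x' - s x - (x' - x) * κ) + (x' - x) * κ| := by ring_nf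
      _ ≤ |s x' - s x - (x' - x) * κ| + |(x' - x) * κ| := abs_add_le _ _
      _ = _ := by rw [abs_mul]
  have h7 : |s x' - s x| ≤ (2 * |κ| + 1) * |x' - x| := by
    have h8 : c * (|x' - x| + |s x' - s x|) ≤ 1 / 2 * (|x' - x| + |s x' - s x|) := by gcongr
    nlinarith
  rw [smul_eq_mul, Real.norm_eq_abs, Real.norm_eq_abs]
  calc |s x' - s x - (x' - x) * κ| ≤ c * (|x' - x| + |s x' - s x|) := h5
    _ ≤ c * (|x' - x| + (2 * |κ| + 1) * |x' - x|) := by gcongr
    _ = c * (2 * |κ| + 2) * |x' - x| := by ring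
    _ ≤ ε * |x' - x| := by gcongr

lemma IsBranch.deriv {p : ℝ[X][Y]} {s : ℝ → ℝ} (hb : IsBranch p s) :
    ∃ A B : ℝ[X][Y], ∀ᶠ x : ℝ in 𝓝[>] 0, B.evalEval x (s x) ≠ 0 ∧
      HasDerivAt s (A.evalEval x (s x) / B.evalEval x (s x)) x := by
  obtain ⟨hp, hb⟩ := hb
  obtain ⟨px, hpx⟩ := exists_partials p
  refine ⟨-px, derivative p, ?_⟩
  filter_upwards [hb, ev_ev hb] with x hx hx'
  refine ⟨hx.2.1, ?_⟩
  have h := implicit_deriv (fun z : ℝ × ℝ => p.evalEval z.1 z.2) s x _ _ (hpx x (s x)) hx.2.1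
    hx.2.2 (hx'.mono (fun x' h => h.1))
  rw [evalEval_neg]
  exact h

lemma comp_deriv {s : ℝ → ℝ} {x s' : ℝ} (P Px : ℝ[X][Y])
    (hP : ∀ x y : ℝ, HasFDerivAt (fun z : ℝ × ℝ => P.evalEval z.1 z.2)
      (Px.evalEval x y • ContinuousLinearMap.fst ℝ ℝ ℝ +
        (derivative P).evalEval x y • ContinuousLinearMap.snd ℝ ℝ ℝ) (x, y))
    (hs : HasDerivAt s s' x) :
    HasDerivAt (fun x => P.evalEval x (s x))
      (Px.evalEval x (s x) + (derivative P).evalEval x (s x) * s') x := by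
  have h1 : HasDerivAt (fun x : ℝ => ((x, s x) : ℝ × ℝ)) ((1, s') : ℝ × ℝ) x :=
    (hasDerivAt_id x).prodMk hs
  have h2 := (hP x (s x)).comp_hasDerivAt x h1
  have h3 : (Px.evalEval x (s x) • ContinuousLinearMap.fst ℝ ℝ ℝ +
        (derivative P).evalEval x (s x) • ContinuousLinearMap.snd ℝ ℝ ℝ) ((1, s') : ℝ × ℝ) =
      Px.evalEval x (s x) + (derivative P).evalEval x (s x) * s' := by
    simp
  rw [h3] at h2
  exact h2

lemma Nice.deriv {p : ℝ[X][Y]} {s : ℝ → ℝ} (hb : IsBranch p s) {h : ℝ → ℝ} (hh : Nice s h) :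
    (∀ᶠ x : ℝ in 𝓝[>] 0, HasDerivAt h (deriv h x) x) ∧ Nice s (deriv h) := by
  obtain ⟨P, Q, hPQ⟩ := hh
  obtain ⟨A, B, hAB⟩ := hb.deriv
  obtain ⟨Px, hPx⟩ := exists_partials P
  obtain ⟨Qx, hQx⟩ := exists_partials Q
  have key : ∀ᶠ x : ℝ in 𝓝[>] 0, (Q ^ 2 * B).evalEval x (s x) ≠ 0 ∧ HasDerivAt h
      (((Px * B + derivative P * A) * Q - P * (Qx * B + derivative Q * A)).evalEval x (s x) /
        (Q ^ 2 * B).evalEval x (s x)) x := by
    filter_upwards [hPQ, ev_ev hPQ, hAB] with x h1 h2 h3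
    have h4 := comp_deriv P Px hPx h3.2
    have h5 := comp_deriv Q Qx hQx h3.2
    have h6 := h4.div h5 h1.1
    have h7 : h =ᶠ[𝓝 x] fun x => P.evalEval x (s x) / Q.evalEval x (s x) :=
      h2.mono (fun x' h => h.2)
    have h8 := h6.congr_of_eventuallyEq h7
    refine ⟨?_, ?_⟩
    · rw [evalEval_mul, evalEval_pow]
      exact mul_ne_zero (pow_ne_zero 2 h1.1) h3.1
    · have hQ := h1.1
      have hB := h3.1
      refine h8.congr_deriv ?_
      rw [evalEval_sub, evalEval_mul, evalEval_mul, evalEval_add, evalEval_add, evalEval_mul,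
        evalEval_mul, evalEval_mul, evalEval_mul, evalEval_mul, evalEval_pow]
      field_simp
  refine ⟨key.mono (fun x hx => ?_), ⟨_, _, key.mono (fun x hx => ⟨hx.1, hx.2.deriv⟩)⟩⟩
  exact hx.2.differentiableAt.hasDerivAt

lemma Nice.sign {p : ℝ[X][Y]} {s : ℝ → ℝ} (hb : IsBranch p s) {h : ℝ → ℝ} (hh : Nice s h) :
    (∀ᶠ x : ℝ in 𝓝[>] 0, 0 ≤ h x) ∨ (∀ᶠ x : ℝ in 𝓝[>] 0, h x ≤ 0) := by
  have hdiff := (hh.deriv hb).1
  obtain ⟨P, Q, hPQ⟩ := hh
  rcases hb.dichotomy P with hP | hP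
  · left
    filter_upwards [hPQ, hP] with x h1 h2
    rw [h1.2, h2, zero_div]
  · obtain ⟨δ, hδ, hall⟩ := ev_iff.mp (hdiff.and (hPQ.and hP))
    have hne : ∀ x ∈ Ioo 0 δ, h x ≠ 0 := by
      intro x hx
      obtain ⟨-, h1, h2⟩ := hall x hx
      rw [h1.2]
      exact div_ne_zero h2 h1.1
    have hcont : ContinuousOn h (Ioo 0 δ) := fun x hx =>
      (hall x hx).1.continuousAt.continuousWithinAt
    by_cases hneg : ∃ a ∈ Ioo 0 δ, h a < 0
    · right
      obtain ⟨a, ha, ha0⟩ := hneg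
      rw [ev_iff]
      refine ⟨δ, hδ, fun x hx => ?_⟩
      by_contra hpos
      push Not at hpos
      have := isPreconnected_Ioo.intermediate_value ha hx hcont
      obtain ⟨z, hz, hz0⟩ := this ⟨ha0.le, hpos.le⟩
      exact hne z hz hz0
    · left
      push Not at hneg
      rw [ev_iff]
      exact ⟨δ, hδ, hneg⟩

lemma Nice.monotone {p : ℝ[X][Y]} {s : ℝ → ℝ} (hb : IsBranch p s) {h : ℝ → ℝ} (hh : Nice s h) :
    ∃ δ > 0, MonotoneOn h (Ioo 0 δ) ∨ AntitoneOn h (Ioo 0 δ) := by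
  obtain ⟨h1, h2⟩ := hh.deriv hb
  rcases h2.sign hb with h3 | h3
  · obtain ⟨δ, hδ, hall⟩ := ev_iff.mp (h1.and h3)
    refine ⟨δ, hδ, Or.inl ?_⟩
    refine monotoneOn_of_deriv_nonneg (convex_Ioo 0 δ)
      (fun x hx => (hall x hx).1.continuousAt.continuousWithinAt) ?_ ?_
    · rw [interior_Ioo]
      exact fun x hx => (hall x hx).1.differentiableAt.differentiableWithinAt
    · rw [interior_Ioo]
      exact fun x hx => (hall x hx).2
  · obtain ⟨δ, hδ, hall⟩ := ev_iff.mp (h1.and h3)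
    refine ⟨δ, hδ, Or.inr ?_⟩
    refine antitoneOn_of_deriv_nonpos (convex_Ioo 0 δ)
      (fun x hx => (hall x hx).1.continuousAt.continuousWithinAt) ?_ ?_
    · rw [interior_Ioo]
      exact fun x hx => (hall x hx).1.differentiableAt.differentiableWithinAt
    · rw [interior_Ioo]
      exact fun x hx => (hall x hx).2

/-- `h = o(x ^ a)` as `x → 0⁺`. -/
def Small (a : ℕ) (h : ℝ → ℝ) : Prop := ∀ ε > 0, ∀ᶠ x : ℝ in 𝓝[>] 0, |h x| ≤ ε * x ^ a

lemma small_deriv_of_monotone (a : ℕ) (h h' : ℝ → ℝ) (δ : ℝ) (hδ : 0 < δ)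
    (hder : ∀ x ∈ Ioo 0 δ, HasDerivAt h (h' x) x) (hmono : MonotoneOn h' (Ioo 0 δ))
    (hsmall : Small (a + 1) h) : Small a h' := by
  intro ε hε
  obtain ⟨δ₁, hδ₁, h1⟩ := ev_iff.mp (hsmall (ε / (4 * 2 ^ (a + 1))) (by positivity))
  rw [ev_iff]
  refine ⟨min δ δ₁ / 2, by positivity, fun x hx => ?_⟩
  have hxpos : 0 < x := hx.1
  have hx2 : 2 * x < min δ δ₁ := by linarith [hx.2]
  have hxδ : 2 * x < δ := lt_of_lt_of_le hx2 (min_le_left _ _)
  have hxδ₁ : 2 * x < δ₁ := lt_of_lt_of_le hx2 (min_le_right _ _)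
  set ε' := ε / (4 * 2 ^ (a + 1)) with hε'
  have hε'0 : 0 < ε' := by positivity
  have b1 := h1 x ⟨hxpos, by linarith⟩
  have b2 := h1 (2 * x) ⟨by linarith, by linarith⟩
  have b3 := h1 (x / 2) ⟨by linarith, by linarith⟩
  -- mean value theorem on (x, 2x)
  obtain ⟨ξ, hξ, hξ'⟩ := exists_hasDerivAt_eq_slope h h' (by linarith : x < 2 * x)
    (fun y hy => (hder y ⟨by linarith [hy.1], by linarith [hy.2]⟩).continuousAt.continuousWithinAt)
    (fun y hy => hder y ⟨by linarith [hy.1], by linarith [hy.2]⟩)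
  obtain ⟨ζ, hζ, hζ'⟩ := exists_hasDerivAt_eq_slope h h' (by linarith : x / 2 < x)
    (fun y hy => (hder y ⟨by linarith [hy.1], by linarith [hy.2]⟩).continuousAt.continuousWithinAt)
    (fun y hy => hder y ⟨by linarith [hy.1], by linarith [hy.2]⟩)
  have m1 : h' x ≤ h' ξ := hmono ⟨hxpos, by linarith⟩ ⟨by linarith [hξ.1], by linarith [hξ.2]⟩
    hξ.1.le
  have m2 : h' ζ ≤ h' x := hmono ⟨by linarith [hζ.1], by linarith [hζ.2]⟩ ⟨hxpos, by linarith⟩
    hζ.2.le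
  rw [abs_le] at b1 b2 b3
  have hpa : (0 : ℝ) < x ^ a := by positivity
  have h2a : (1 : ℝ) ≤ 2 ^ (a + 1) := one_le_pow₀ (by norm_num)
  have e1 : ε' * x ^ (a + 1) = ε' * x ^ a * x := by ring
  have e2 : ε' * (2 * x) ^ (a + 1) = ε' * 2 ^ (a + 1) * x ^ a * x := by
    rw [mul_pow]; ring
  have e3 : ε' * (x / 2) ^ (a + 1) ≤ ε' * x ^ a * x := by
    rw [← e1]
    gcongr
    linarith
  have e4 : ε' * (4 * 2 ^ (a + 1)) = ε := by
    rw [hε']; field_simp
  have e5 : ε' * x ^ a * x ≤ ε' * 2 ^ (a + 1) * x ^ a * x := by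
    have : ε' ≤ ε' * 2 ^ (a + 1) := by nlinarith
    gcongr
  set D := ε' * 2 ^ (a + 1) * x ^ a with hD
  have e6 : ε * x ^ a = 4 * D := by rw [hD, ← e4]; ring
  rw [abs_le]
  constructor
  · -- lower bound
    have h3 : (h x - h (x / 2)) / (x - x / 2) ≥ - (4 * D) := by
      rw [ge_iff_le, le_div_iff₀ (by linarith)]
      nlinarith
    rw [e6]
    linarith
  · have h3 : (h (2 * x) - h x) / (2 * x - x) ≤ 4 * D := by
      rw [div_le_iff₀ (by linarith)]
      nlinarith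
    rw [e6]
    linarith

lemma Nice.small_deriv {p : ℝ[X][Y]} {s : ℝ → ℝ} (hb : IsBranch p s) {h : ℝ → ℝ}
    (hh : Nice s h) (a : ℕ) (hsmall : Small (a + 1) h) : Small a (_root_.deriv h) := by
  obtain ⟨h1, h2⟩ := hh.deriv hb
  obtain ⟨δ, hδ, hmon⟩ := h2.monotone hb
  obtain ⟨δ₁, hδ₁, hall⟩ := ev_iff.mp h1
  rcases hmon with hmon | hmon
  · exact small_deriv_of_monotone a h (_root_.deriv h) (min δ δ₁) (by positivity)
      (fun x hx => hall x ⟨hx.1, lt_of_lt_of_le hx.2 (min_le_right _ _)⟩)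
      (hmon.mono (Ioo_subset_Ioo_right (min_le_left _ _))) hsmall
  · have h3 := small_deriv_of_monotone a (fun x => - h x) (fun x => - _root_.deriv h x)
      (min δ δ₁) (by positivity)
      (fun x hx => (hall x ⟨hx.1, lt_of_lt_of_le hx.2 (min_le_right _ _)⟩).neg)
      ((hmon.mono (Ioo_subset_Ioo_right (min_le_left _ _))).neg) ?_
    · intro ε hε
      simpa using h3 ε hε
    · intro ε hε
      simpa using hsmall ε hε

/-- extension by zero to the left -/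
noncomputable def ext0 (h : ℝ → ℝ) : ℝ → ℝ := fun x => if 0 < x then h x else 0

lemma ext0_hasDerivAt (k : ℕ) {h : ℝ → ℝ} (hsmall : Small (k + 1) h) (δ : ℝ)
    (hder : ∀ x ∈ Ioo 0 δ, HasDerivAt h (deriv h x) x) :
    ∀ x ∈ Iio δ, HasDerivAt (ext0 h) (ext0 (deriv h) x) x := by
  intro x hx
  rcases lt_trichotomy x 0 with h0 | h0 | h0
  · have h1 : ext0 h =ᶠ[𝓝 x] fun _ => 0 := by
      filter_upwards [Iio_mem_nhds h0] with y hy
      simp only [ext0, mem_Iio] at *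
      rw [if_neg (not_lt.mpr hy.le)]
    have h2 : ext0 (deriv h) x = 0 := by
      simp only [ext0]
      rw [if_neg (not_lt.mpr h0.le)]
    rw [h2]
    exact (hasDerivAt_const x (0 : ℝ)).congr_of_eventuallyEq h1
  · subst h0
    have h2 : ext0 (deriv h) 0 = 0 := by simp [ext0]
    rw [h2, hasDerivAt_iff_isLittleO, Asymptotics.isLittleO_iff]
    intro ε hε
    have h3 := hsmall ε hε
    rw [eventually_nhdsWithin_iff] at h3
    filter_upwards [h3, Iio_mem_nhds (show (0 : ℝ) < 1 by norm_num)] with x hx hx1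
    simp only [ext0, lt_irrefl, if_false, sub_zero, smul_zero, Real.norm_eq_abs]
    split_ifs with hpos
    · have h4 := hx hpos
      refine h4.trans ?_
      rw [abs_of_pos hpos]
      have : x ^ (k + 1) ≤ x := by
        calc x ^ (k + 1) ≤ x ^ 1 := pow_le_pow_of_le_one hpos.le (le_of_lt hx1) (by omega)
          _ = x := pow_one x
      gcongr
    · simp; positivity
  · have h1 : ext0 h =ᶠ[𝓝 x] h := by
      filter_upwards [Ioi_mem_nhds h0] with y hy
      simp only [ext0, mem_Ioi] at *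
      rw [if_pos hy]
    have h2 : ext0 (deriv h) x = deriv h x := by
      simp only [ext0]
      rw [if_pos h0]
    rw [h2]
    exact (hder x ⟨h0, hx⟩).congr_of_eventuallyEq h1

lemma ext0_contDiffOn {p : ℝ[X][Y]} {s : ℝ → ℝ} (hb : IsBranch p s) (k : ℕ) :
    ∀ {h : ℝ → ℝ}, Nice s h → Small k h → ∃ δ > 0, ContDiffOn ℝ k (ext0 h) (Iio δ) := by
  induction k with
  | zero =>
    intro h hh hsmall
    obtain ⟨h1, -⟩ := hh.deriv hb
    obtain ⟨δ, hδ, hall⟩ := ev_iff.mp h1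
    refine ⟨δ, hδ, ?_⟩
    rw [Nat.cast_zero, contDiffOn_zero]
    intro x hx
    apply ContinuousAt.continuousWithinAt
    rcases lt_trichotomy x 0 with h0 | h0 | h0
    · have h1 : ext0 h =ᶠ[𝓝 x] fun _ => 0 := by
        filter_upwards [Iio_mem_nhds h0] with y hy
        simp only [ext0, mem_Iio] at *
        rw [if_neg (not_lt.mpr hy.le)]
      exact continuousAt_const.congr h1.symm
    · subst h0
      rw [ContinuousAt, Metric.tendsto_nhds]
      intro ε hε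
      have h3 := hsmall (ε / 2) (by positivity)
      rw [eventually_nhdsWithin_iff] at h3
      filter_upwards [h3] with x hx
      simp only [ext0, lt_irrefl, if_false, Real.dist_eq, sub_zero]
      split_ifs with hpos
      · have h4 := hx hpos
        rw [pow_zero, mul_one] at h4
        linarith
      · simpa using hε
    · have h1 : ext0 h =ᶠ[𝓝 x] h := by
        filter_upwards [Ioi_mem_nhds h0] with y hy
        simp only [ext0, mem_Ioi] at *
        rw [if_pos hy]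
      exact ((hall x ⟨h0, hx⟩).continuousAt).congr h1.symm
  | succ k ih =>
    intro h hh hsmall
    obtain ⟨h1, h2⟩ := hh.deriv hb
    obtain ⟨δ, hδ, hall⟩ := ev_iff.mp h1
    have h3 := hh.small_deriv hb k hsmall
    obtain ⟨δ₁, hδ₁, h4⟩ := ih h2 h3
    refine ⟨min δ δ₁, by positivity, ?_⟩
    have h5 := ext0_hasDerivAt k hsmall δ hall
    have h6 : ∀ x ∈ Iio (min δ δ₁), HasDerivAt (ext0 h) (ext0 (_root_.deriv h) x) x :=
      fun x hx => h5 x (lt_of_lt_of_le (mem_Iio.mp hx) (min_le_left _ _) : x < δ)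
    rw [Nat.cast_add, Nat.cast_one, contDiffOn_succ_iff_deriv_of_isOpen isOpen_Iio]
    refine ⟨fun x hx => (h6 x hx).differentiableAt.differentiableWithinAt, by simp, ?_⟩
    refine (h4.mono (Iio_subset_Iio (min_le_right _ _))).congr ?_
    intro x hx
    exact (h6 x hx).deriv

end Pool.Agent.helper28.Jets
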