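import Pool.Agent.helper28.JetsHardy
import Pool.Agent.helper28.JetsFlat

set_option autoImplicit false

open Filter Topology Set Polynomial
open scoped Polynomial.Bivariate

namespace Pool.Agent.helper28.Jets

/-- the description of a semialgebraic set -/
def SemiAlg (n : ℕ) (V : Set (Fin n → ℝ)) : Prop :=
  ∃ (k : ℕ) (f : Fin k → MvPolynomial (Fin n) ℝ)
    (g : Fin k → Finset (MvPolynomial (Fin n) ℝ)),
    V = ⋃ i : Fin k, {x : Fin n → ℝ | MvPolynomial.eval x (f i) = 0 ∧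
      ∀ p ∈ g i, 0 < MvPolynomial.eval x p}

/-- conversion of polynomials in two variables, with a sign change of the first variable -/
noncomputable def conv (σ : ℝ) (f : MvPolynomial (Fin 2) ℝ) : ℝ[X][Y] :=
  MvPolynomial.eval₂ ((C : ℝ[X] →+* ℝ[X][Y]).comp (C : ℝ →+* ℝ[X])) ![C (C σ * X), X] f

lemma evalEval_conv (σ x y : ℝ) (f : MvPolynomial (Fin 2) ℝ) :
    (conv σ f).evalEval x y = MvPolynomial.eval ![σ * x, y] f := by
  unfold conv
  induction f using MvPolynomial.induction_on with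
  | C a => simp [evalEval]
  | add p q hp hq =>
    rw [MvPolynomial.eval₂_add, evalEval_add, hp, hq, map_add]
  | mul_X p i hp =>
    rw [MvPolynomial.eval₂_mul, evalEval_mul, hp, RingHom.map_mul (MvPolynomial.eval ![σ * x, y]),
      MvPolynomial.eval₂_X, MvPolynomial.eval_X]
    fin_cases i <;> simp [evalEval]

theorem one_side (σ : ℝ) (V : Set (Fin 2 → ℝ)) (hV : SemiAlg 2 V)
    (hthin : ∀ ε > 0, ∀ᶠ x : ℝ in 𝓝[>] 0, ∀ y, |y| < x → ![σ * x, y] ∈ V → |y| ≤ ε * x ^ 2)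
    (huniq : ∀ᶠ x : ℝ in 𝓝[>] 0, ∀ y y', |y| < x → |y'| < x → ![σ * x, y] ∈ V →
      ![σ * x, y'] ∈ V → y = y') :
    ∃ h : ℝ → ℝ, (∃ δ > 0, ContDiffOn ℝ 4 (ext0 h) (Iio δ)) ∧
      (∀ᶠ x : ℝ in 𝓝[>] 0, ∀ y, |y| < x → ![σ * x, y] ∈ V → x ^ 2 * y = h x) ∧
      (∀ᶠ x : ℝ in 𝓝[>] 0, HasDerivAt h (deriv h x) x) ∧ Small 3 (deriv h) := by
  classical
  obtain ⟨k, f, g, rfl⟩ := hV
  set V : Set (Fin 2 → ℝ) := ⋃ i : Fin k, {x : Fin 2 → ℝ | MvPolynomial.eval x (f i) = 0 ∧
      ∀ p ∈ g i, 0 < MvPolynomial.eval x p} with hVdef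
  have hW : ∀ x y, (![σ * x, y] ∈ V) ↔ ∃ i, (conv σ (f i)).evalEval x y = 0 ∧
      ∀ q ∈ (g i).image (conv σ), 0 < q.evalEval x y := by
    intro x y
    rw [hVdef, mem_iUnion]
    refine exists_congr (fun i => ?_)
    rw [mem_ofPred_eq, evalEval_conv]
    refine and_congr_right (fun _ => ?_)
    constructor
    · intro h q hq
      obtain ⟨p, hp, rfl⟩ := Finset.mem_image.mp hq
      rw [evalEval_conv]
      exact h p hp
    · intro h p hp
      have := h (conv σ p) (Finset.mem_image_of_mem _ hp)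
      rwa [evalEval_conv] at this
  have hbd : ∀ᶠ x : ℝ in 𝓝[>] 0, ∀ y, |y| < x → ![σ * x, y] ∈ V → |y| ≤ x ^ 2 := by
    filter_upwards [hthin 1 one_pos] with x hx y h1 h2
    simpa using hx y h1 h2
  rcases branch k (fun i => conv σ (f i)) (fun i => (g i).image (conv σ))
    (fun x y => ![σ * x, y] ∈ V) hW hbd huniq with h | ⟨p, s, hp, hs⟩
  · -- no branch
    refine ⟨fun _ => 0, ⟨1, one_pos, ?_⟩, ?_, ?_, ?_⟩
    · have : ext0 (fun _ => 0) = fun _ => 0 := by
        ext x; simp [ext0]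
      rw [this]
      exact contDiffOn_const
    · filter_upwards [h] with x hx y h1 h2
      exact absurd h2 (hx y h1)
    · exact Eventually.of_forall (fun x => by simpa using hasDerivAt_const x (0 : ℝ))
    · intro ε hε
      filter_upwards [self_mem_nhdsWithin] with x hx
      have hx' : (0 : ℝ) < x := hx
      simp only [deriv_const', abs_zero]
      positivity
  · -- a branch
    have hb : IsBranch p s := ⟨hp, hs.mono (fun x hx => ⟨hx.2.2.1, hx.2.2.2.1, hx.2.2.2.2⟩)⟩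
    set h : ℝ → ℝ := fun x => x ^ 2 * s x with hh
    have hnice : Nice s h := by
      refine ⟨C (X ^ 2) * X, 1, Eventually.of_forall (fun x => ?_)⟩
      rw [evalEval_one, evalEval_mul, evalEval_C, evalEval_X]
      simp [hh]
    have hsmall : Small 4 h := by
      intro ε hε
      filter_upwards [hthin ε hε, hs] with x h1 h2
      have h3 := h1 (s x) h2.1 h2.2.1
      rw [hh]
      simp only [abs_mul, abs_pow]
      rw [sq_abs]
      calc x ^ 2 * |s x| ≤ x ^ 2 * (ε * x ^ 2) := by gcongr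
        _ = ε * x ^ 4 := by ring
    obtain ⟨δ, hδ, hcd⟩ := ext0_contDiffOn hb 4 hnice hsmall
    refine ⟨h, ⟨δ, hδ, by exact_mod_cast hcd⟩, ?_, (hnice.deriv hb).1,
      hnice.small_deriv hb 3 hsmall⟩
    filter_upwards [hs, huniq] with x h1 h2 y h3 h4
    rw [h2 y (s x) h3 h1.1 h4 h1.2.1]

end Pool.Agent.helper28.Jets
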